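import Pool.Agent.H872.BQ.Int

/-!
# The integral subring of `A⟨T⟩`
-/

set_option autoImplicit false

open Filter Topology

namespace Pool.Agent.H872.BQ

section Ang

variable (p : ℕ) [Fact p.Prime]

/-- The ring `ℤ_p⟨X, Y⟩⟨T⟩`. -/
abbrev V0 : Type := res Unit (W0 p) (p : W0 p)

variable {p}

/-- The coefficient of `T ^ n`. -/
noncomputable def cf (n : ℕ) (F : V0 p) : W0 p :=
  MvPowerSeries.coeff (Finsupp.single () n) F.1

theorem unit_single (t : Unit →₀ ℕ) : Finsupp.single () (t ()) = t := by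
  ext
  simp

theorem tendsto_single : Tendsto (fun n : ℕ => (Finsupp.single () n : Unit →₀ ℕ)) atTop cofinite := by
  rw [← Nat.cofinite_eq_atTop]
  exact (Finsupp.single_injective ()).tendsto_cofinite

theorem tendsto_apply : Tendsto (fun t : Unit →₀ ℕ => t ()) cofinite atTop := by
  rw [← Nat.cofinite_eq_atTop]
  refine Function.Injective.tendsto_cofinite fun s t h => ?_
  have h' : s () = t () := h
  rw [← unit_single s, ← unit_single t, h']

theorem mem_iff {F : MvPowerSeries Unit (W0 p)} : F ∈ res Unit (W0 p) (p : W0 p) ↔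
    ∀ r : ℕ, ∀ᶠ n in atTop, (p : W0 p) ^ r ∣ MvPowerSeries.coeff (Finsupp.single () n) F := by
  constructor
  · intro h r
    exact tendsto_single.eventually (h r)
  · intro h r
    have := tendsto_apply.eventually (h r)
    filter_upwards [this] with t ht
    rwa [unit_single] at ht

theorem cstV_p : cst Unit (p : W0 p) (p : W0 p) = (p : V0 p) := map_natCast _ _

theorem V0_cancel (x : V0 p) (h : (p : V0 p) * x = 0) : x = 0 := by
  rw [← cstV_p] at h
  exact cst_cancel W0_cancel x h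

variable (p)

/-- Reduction modulo `p` and normalisation of the cusp. -/
noncomputable def theta : V0 p →+* MvPolynomial Unit (Polynomial (ZMod p)) :=
  red (rho0 p) rho0_p

/-- The equation of the curve. -/
noncomputable def fV : V0 p := cst Unit (p : W0 p) (f0 p)

variable {p}

theorem theta_p : theta p (p : V0 p) = 0 := by
  rw [← cstV_p, theta, red_cst, rho0_p, MvPolynomial.C_0]

theorem theta_f : theta p (fV p) = 0 := by
  rw [theta, fV, red_cst, rho0_f, MvPolynomial.C_0]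

theorem ker_theta (x : V0 p) (h : theta p x = 0) :
    ∃ a b, x = (p : V0 p) * a + fV p * b := by
  have := ker_red (rho0 p) rho0_p W0_cancel (f0 p) ker_rho0 x h
  rw [cstV_p] at this
  exact this

theorem V0_gauss (h : V0 p) (hd : (p : V0 p) ∣ fV p * h) : (p : V0 p) ∣ h := by
  obtain ⟨c, hc⟩ := hd
  have h1 : ∀ t, (p : W0 p) ^ 1 ∣ MvPowerSeries.coeff t h.1 := by
    intro t
    rw [pow_one]
    refine W0_gauss _ ⟨MvPowerSeries.coeff t c.1, ?_⟩
    rw [← coeff_cst_mul, ← coeff_cst_mul, cstV_p, ← hc]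
    rfl
  obtain ⟨g, hg⟩ := exists_eq_pow_mul W0_cancel 1 h h1
  rw [pow_one, cstV_p] at hg
  exact ⟨g, hg⟩

/-- The ideal of the curve in `ℚ_p⟨X, Y⟩`. -/
noncomputable def II (p : ℕ) [Fact p.Prime] : Ideal (Tate ℚ_[p] 2) := Ideal.span {iota p (f0 p)}

/-- The coefficients of the map of `V0` to `A⟨T⟩`. -/
noncomputable def qA (p : ℕ) [Fact p.Prime] : W0 p →+* (Aff (II p)) :=
  (toAff (II p)).comp (iota p)

theorem norm_qA_le {w : W0 p} {r : ℕ} (h : (p : W0 p) ^ r ∣ w) :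
    ‖qA p w‖ ≤ (p : ℝ) ^ (-(r : ℤ)) :=
  (Ideal.Quotient.norm_mk_le _ _).trans ((W0_dvd_iff w r).1 h)

theorem tendsto_qA {c : ℕ → W0 p} (h : ∀ r : ℕ, ∀ᶠ n in atTop, (p : W0 p) ^ r ∣ c n) :
    Tendsto (fun n => ‖qA p (c n)‖) atTop (𝓝 0) := by
  rw [Metric.tendsto_nhds]
  intro ε hε
  obtain ⟨r, hr⟩ := PadicInt.exists_pow_neg_lt p hε
  filter_upwards [h r] with n hn
  have h1 := (norm_qA_le hn).trans_lt hr
  simpa using h1

/-- The map of `V0` to `A⟨T⟩`. -/
noncomputable def Phi (p : ℕ) [Fact p.Prime] : V0 p →+* AffT (II p) :=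
  RingHom.codRestrict ((PowerSeries.map (qA p)).comp (res Unit (W0 p) (p : W0 p)).subtype)
    (angle (II p)) (by
      intro F
      exact tendsto_qA (c := fun n => cf n F) (mem_iff.1 F.2))

theorem coeff_Phi (F : V0 p) (n : ℕ) : PowerSeries.coeff n (Phi p F).1 = qA p (cf n F) := rfl

theorem exists_Phi (z : AffT (II p)) :
    ∃ (r : ℕ) (F : V0 p), Phi p F = (p : AffT (II p)) ^ r * z := by
  obtain ⟨g, hg, hgz⟩ := (tendsto_iff_lift (II p) z.1).1 z.2
  obtain ⟨B, hB⟩ : ∃ B : ℝ, ∀ n, ‖PowerSeries.coeff n g‖ ≤ B := by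
    obtain ⟨B, hB⟩ := hg.bddAbove_range
    exact ⟨B, fun n => hB ⟨n, rfl⟩⟩
  obtain ⟨r, hr⟩ : ∃ r : ℕ, B ≤ (p : ℝ) ^ r := by
    have hp : (1 : ℝ) < p := by exact_mod_cast (Fact.out : p.Prime).one_lt
    obtain ⟨r, hr⟩ := pow_unbounded_of_one_lt B hp
    exact ⟨r, hr.le⟩
  have h1 : ∀ n, ∃ w0 : W0 p, iota p w0 = (p : Tate ℚ_[p] 2) ^ r * PowerSeries.coeff n g :=
    fun n => exists_pow_mul _ r ((hB n).trans hr)
  choose w hw using h1
  have hmem : (fun t : Unit →₀ ℕ => w (t ()) : MvPowerSeries Unit (W0 p)) ∈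
      res Unit (W0 p) (p : W0 p) := by
    refine mem_iff.2 fun s => ?_
    have hp : (0 : ℝ) < p := by exact_mod_cast (Fact.out : p.Prime).pos
    have h2 := (Metric.tendsto_nhds.1 hg) _ (zpow_pos hp (-(s : ℤ)))
    filter_upwards [h2] with n hn
    change _ ∣ w ((Finsupp.single () n : Unit →₀ ℕ) ())
    rw [Finsupp.single_eq_same, W0_dvd_iff, hw]
    have h3 : ‖PowerSeries.coeff n g‖ < (p : ℝ) ^ (-(s : ℤ)) := by simpa using hn
    refine (norm_coe_pow r _).trans ?_
    have h4 : (p : ℝ) ^ (-(r : ℤ)) ≤ 1 := by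
      rw [zpow_neg, zpow_natCast]
      have hp1 : (1 : ℝ) ≤ p := by exact_mod_cast (Fact.out : p.Prime).one_lt.le
      exact inv_le_one_of_one_le₀ (one_le_pow₀ hp1)
    calc (p : ℝ) ^ (-(r : ℤ)) * ‖PowerSeries.coeff n g‖
        ≤ 1 * ‖PowerSeries.coeff n g‖ := mul_le_mul_of_nonneg_right h4 (norm_nonneg _)
      _ ≤ _ := by rw [one_mul]; exact h3.le
  refine ⟨r, ⟨_, hmem⟩, ?_⟩
  apply Subtype.ext
  ext n
  rw [coeff_Phi]
  have h2 : cf n (⟨_, hmem⟩ : V0 p) = w n := by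
    change w ((Finsupp.single () n : Unit →₀ ℕ) ()) = w n
    rw [Finsupp.single_eq_same]
  have h3 : ((p : AffT (II p)) ^ r * z).1 = PowerSeries.C ((p : Aff (II p)) ^ r) * z.1 := by
    rw [map_pow, map_natCast]
    rfl
  rw [h2, h3, PowerSeries.coeff_C_mul, ← hgz, PowerSeries.coeff_map, qA, RingHom.comp_apply, hw,
    map_mul, map_pow, map_natCast]

theorem ker_Phi (G : V0 p) (h : Phi p G = 0) : ∃ H, G = fV p * H := by
  have h1 : ∀ n, ∃ h, cf n G = f0 p * h := by
    intro n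
    refine exists_of_iota_mem _ ?_
    have h2 : PowerSeries.coeff n (Phi p G).1 = 0 := by rw [h]; rfl
    rw [coeff_Phi] at h2
    exact Ideal.Quotient.eq_zero_iff_mem.1 h2
  choose w hw using h1
  have hmem : (fun t : Unit →₀ ℕ => w (t ()) : MvPowerSeries Unit (W0 p)) ∈
      res Unit (W0 p) (p : W0 p) := by
    refine mem_iff.2 fun s => ?_
    filter_upwards [mem_iff.1 G.2 s] with n hn
    change _ ∣ w ((Finsupp.single () n : Unit →₀ ℕ) ())
    rw [Finsupp.single_eq_same]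
    refine pow_dvd_of W0_cancel W0_gauss s _ ?_
    rw [← hw]
    exact hn
  refine ⟨⟨_, hmem⟩, ext_coeff fun t => ?_⟩
  rw [fV, coeff_cst_mul]
  change _ = f0 p * w (t ())
  rw [← hw, cf, unit_single]

/-- Evaluation at `T = 1` of the reduction. -/
noncomputable def ev1 (p : ℕ) [Fact p.Prime] : V0 p →+* Polynomial (ZMod p) :=
  (MvPolynomial.eval (fun _ => (1 : Polynomial (ZMod p)))).comp (theta p)

theorem coeff_one_rho0 (w : W0 p) : (rho0 p w).coeff 1 = 0 := coeff_one_psi _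

theorem coeff_one_ev1 (F : V0 p) : (ev1 p F).coeff 1 = 0 := by
  rw [ev1, RingHom.comp_apply, MvPolynomial.eval_eq]
  simp only [one_pow, Finset.prod_const_one, mul_one]
  rw [Polynomial.finsetSum_coeff]
  refine Finset.sum_eq_zero fun t _ => ?_
  rw [theta, coeff_red]
  exact coeff_one_rho0 _

theorem ev1_cst (w : W0 p) : ev1 p (cst Unit (p : W0 p) w) = rho0 p w := by
  rw [ev1, RingHom.comp_apply, theta, red_cst, MvPolynomial.eval_C]

/-- The variable `T`. -/
noncomputable def TV (p : ℕ) [Fact p.Prime] : V0 p :=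
  ⟨MvPowerSeries.monomial (Finsupp.single () 1) 1, monomial_mem _ _⟩

theorem ev1_T : ev1 p (TV p) = 1 := by
  rw [ev1, RingHom.comp_apply, theta, TV, red_monomial, map_one]
  rw [MvPolynomial.eval_monomial]
  simp

/-- The non-existence of a factorisation of the matrix. -/
theorem no_factorisation (v : V0 p) (hv : ev1 p v = 1) (x y : Fin 2 → AffT (II p))
    (h00 : x 0 * y 0 = Phi p (v + TV p ^ 3 * cst Unit (p : W0 p) (y0 p)))
    (h01 : x 0 * y 1 = Phi p (1 + TV p ^ 2 * cst Unit (p : W0 p) (x0 p) +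
      (TV p ^ 2 * cst Unit (p : W0 p) (x0 p)) ^ 2))
    (h10 : x 1 * y 0 = Phi p (1 - TV p ^ 2 * cst Unit (p : W0 p) (x0 p)))
    (h11 : x 1 * y 1 = Phi p (v - TV p ^ 3 * cst Unit (p : W0 p) (y0 p))) : False := by
  let e : Fin 2 → Fin 2 → V0 p := ![![v + TV p ^ 3 * cst Unit (p : W0 p) (y0 p),
    1 + TV p ^ 2 * cst Unit (p : W0 p) (x0 p) + (TV p ^ 2 * cst Unit (p : W0 p) (x0 p)) ^ 2],
    ![1 - TV p ^ 2 * cst Unit (p : W0 p) (x0 p), v - TV p ^ 3 * cst Unit (p : W0 p) (y0 p)]]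
  have hE : ∀ i j, x i * y j = Phi p (e i j) := by
    intro i j
    fin_cases i <;> fin_cases j
    · exact h00
    · exact h01
    · exact h10
    · exact h11
  have e00 : ev1 p (e 0 0) = 1 + Polynomial.X ^ 3 := by
    change ev1 p (v + TV p ^ 3 * cst Unit (p : W0 p) (y0 p)) = _
    rw [map_add, map_mul, map_pow, hv, ev1_T, ev1_cst, rho0_y, one_pow, one_mul]
  have e01 : ev1 p (e 0 1) = 1 + Polynomial.X ^ 2 + Polynomial.X ^ 4 := by
    change ev1 p (1 + TV p ^ 2 * cst Unit (p : W0 p) (x0 p) +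
      (TV p ^ 2 * cst Unit (p : W0 p) (x0 p)) ^ 2) = _
    rw [map_add, map_add, map_pow, map_mul, map_pow, map_one, ev1_T, ev1_cst, rho0_x]
    ring
  have e10 : ev1 p (e 1 0) = 1 - Polynomial.X ^ 2 := by
    change ev1 p (1 - TV p ^ 2 * cst Unit (p : W0 p) (x0 p)) = _
    rw [map_sub, map_mul, map_pow, map_one, ev1_T, ev1_cst, rho0_x]
    ring
  have e11 : ev1 p (e 1 1) = 1 - Polynomial.X ^ 3 := by
    change ev1 p (v - TV p ^ 3 * cst Unit (p : W0 p) (y0 p)) = _
    rw [map_sub, map_mul, map_pow, hv, ev1_T, ev1_cst, rho0_y, one_pow, one_mul]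
  have hne : ∀ i j, theta p (e i j) ≠ 0 := by
    have key : ∀ i j, ev1 p (e i j) ≠ 0 → theta p (e i j) ≠ 0 := by
      intro i j h1 h2
      apply h1
      rw [ev1, RingHom.comp_apply, h2, map_zero]
    intro i j
    apply key
    have hc : ∀ q : Polynomial (ZMod p), q.coeff 0 = 1 → q ≠ 0 := by
      rintro q hq rfl
      simp at hq
    fin_cases i <;> fin_cases j
    · change ev1 p (e 0 0) ≠ 0
      rw [e00]; exact hc _ (by simp)
    · change ev1 p (e 0 1) ≠ 0
      rw [e01]; exact hc _ (by simp)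
    · change ev1 p (e 1 0) ≠ 0
      rw [e10]; exact hc _ (by simp)
    · change ev1 p (e 1 1) ≠ 0
      rw [e11]; exact hc _ (by simp)
  obtain ⟨N, X, Y, hXY0⟩ := clear_denominators (Phi p) (p : V0 p)
    (fun z => by rw [map_natCast]; exact exists_Phi z) x y e hE
  have hXY : ∀ i j, ∃ H, X i * Y j = (p : V0 p) ^ N * e i j + fV p * H := by
    intro i j
    obtain ⟨H, hH⟩ := ker_Phi _ (hXY0 i j)
    exact ⟨H, by rw [← hH]; ring⟩
  obtain ⟨X', Y', hXY'⟩ := core V0_cancel theta_p theta_f ker_theta V0_gauss X Y e N hXY hne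
  have hev : ∀ i j, ev1 p (X' i) * ev1 p (Y' j) = ev1 p (e i j) := by
    intro i j
    have := congrArg (MvPolynomial.eval (fun _ => (1 : Polynomial (ZMod p)))) (hXY' i j)
    rw [map_mul] at this
    exact this
  exact no_factor (ev1 p (X' 0)) (ev1 p (X' 1)) (ev1 p (Y' 0)) (ev1 p (Y' 1)) (coeff_one_ev1 _)
    ((hev 0 0).trans e00) ((hev 0 1).trans e01) ((hev 1 0).trans e10) ((hev 1 1).trans e11)

end Ang

end Pool.Agent.H872.BQ
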