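import Mathlib

/-!
# Removing powers of `p` from a factorisation modulo `f`
-/

set_option autoImplicit false

namespace Pool.Agent.H872.BQ

section Core

variable {V L : Type} [CommRing V] [CommRing L] [IsDomain L] {p f : V} {θ : V →+* L}

theorem pow_dvd_of {p f : V} (hp : ∀ x : V, p * x = 0 → x = 0)
    (hG : ∀ h : V, p ∣ f * h → p ∣ h) (M : ℕ) : ∀ h : V, p ^ M ∣ f * h → p ^ M ∣ h := by
  induction M with
  | zero => intro h _; simp
  | succ M ih =>
    intro h ⟨c, hc⟩
    obtain ⟨h', rfl⟩ := hG h ⟨p ^ M * c, by rw [hc]; ring⟩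
    have h1 : p * (f * h' - p ^ M * c) = 0 := by
      have : f * (p * h') = p ^ (M + 1) * c := hc
      linear_combination this
    have h2 := sub_eq_zero.1 (hp _ h1)
    obtain ⟨d, rfl⟩ := ih h' ⟨c, h2⟩
    exact ⟨d, by ring⟩

/-- If `x_i y_j ≡ p ^ M e_ij` modulo `f` and `e_ij` is not zero in the domain `V / (p, f)`, then
there are `x'_i`, `y'_j` with `x'_i y'_j ≡ e_ij` modulo `(p, f)`. -/
theorem core (hp : ∀ x : V, p * x = 0 → x = 0) (hθp : θ p = 0) (hθf : θ f = 0)
    (hker : ∀ x, θ x = 0 → ∃ a b, x = p * a + f * b)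
    (hG : ∀ h : V, p ∣ f * h → p ∣ h) (X Y : Fin 2 → V) (e : Fin 2 → Fin 2 → V) (M : ℕ)
    (hXY : ∀ i j, ∃ H, X i * Y j = p ^ M * e i j + f * H) (he : ∀ i j, θ (e i j) ≠ 0) :
    ∃ X' Y' : Fin 2 → V, ∀ i j, θ (X' i) * θ (Y' j) = θ (e i j) := by
  classical
  -- the key estimate
  have key : ∀ (i j : Fin 2) (k l : ℕ), (∃ a b, X i = p ^ k * a + f * b) →
      (∃ a b, Y j = p ^ l * a + f * b) → k + l ≤ M := by
    rintro i j k l ⟨a, b, hX⟩ ⟨a', b', hY⟩
    by_contra hlt
    push Not at hlt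
    obtain ⟨H, hH⟩ := hXY i j
    obtain ⟨d, hd⟩ : ∃ d, k + l = M + (d + 1) := ⟨k + l - M - 1, by omega⟩
    have h1 : p ^ M * (e i j - p ^ (d + 1) * (a * a')) =
        f * (p ^ k * a * b' + b * (p ^ l * a') + f * b * b' - H) := by
      have h2 : p ^ M * p ^ (d + 1) = p ^ k * p ^ l := by rw [← pow_add, ← pow_add, hd]
      rw [hX, hY] at hH
      linear_combination (-(a * a')) * h2 - hH
    obtain ⟨c, hc⟩ := pow_dvd_of hp hG M _ (Dvd.intro _ h1)
    rw [hc] at h1
    have h3 : ∀ M : ℕ, ∀ x : V, p ^ M * x = 0 → x = 0 := by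
      intro M
      induction M with
      | zero => intro x hx; simpa using hx
      | succ M ih =>
        intro x hx
        refine ih x (hp _ ?_)
        rw [← mul_assoc, ← pow_succ']
        exact hx
    have h4 : e i j - p ^ (d + 1) * (a * a') = f * c := by
      refine sub_eq_zero.1 (h3 M _ ?_)
      linear_combination h1
    have h5 : θ (e i j) = 0 := by
      have := congrArg θ h4
      rw [map_sub, map_mul, map_pow, map_mul θ f, hθp, hθf] at this
      simpa using this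
    exact he i j h5
  have hcan : ∀ M : ℕ, ∀ x : V, p ^ M * x = 0 → x = 0 := by
    intro M
    induction M with
    | zero => intro x hx; simpa using hx
    | succ M ih =>
      intro x hx
      refine ih x (hp _ ?_)
      rw [← mul_assoc, ← pow_succ']
      exact hx
  -- maximal exponents
  have hmaxX : ∀ i, ∃ k a b, X i = p ^ k * a + f * b ∧ θ a ≠ 0 := by
    intro i
    let P : ℕ → Prop := fun k => ∃ a b, X i = p ^ k * a + f * b
    have h0 : P 0 := ⟨X i, 0, by simp⟩
    have hk := Nat.findGreatest_spec (P := P) (Nat.zero_le M) h0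
    obtain ⟨a, b, hab⟩ := hk
    refine ⟨Nat.findGreatest P M, a, b, hab, fun ha => ?_⟩
    obtain ⟨c, d, rfl⟩ := hker a ha
    have h1 : P (Nat.findGreatest P M + 1) :=
      ⟨c, p ^ (Nat.findGreatest P M) * d + b, by rw [hab]; ring⟩
    have h2 := key i 0 _ 0 h1 ⟨Y 0, 0, by simp⟩
    have h3 := Nat.le_findGreatest (P := P) h2 h1
    omega
  have hmaxY : ∀ j, ∃ k a b, Y j = p ^ k * a + f * b ∧ θ a ≠ 0 := by
    intro j
    let P : ℕ → Prop := fun k => ∃ a b, Y j = p ^ k * a + f * b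
    have h0 : P 0 := ⟨Y j, 0, by simp⟩
    have hk := Nat.findGreatest_spec (P := P) (Nat.zero_le M) h0
    obtain ⟨a, b, hab⟩ := hk
    refine ⟨Nat.findGreatest P M, a, b, hab, fun ha => ?_⟩
    obtain ⟨c, d, rfl⟩ := hker a ha
    have h1 : P (Nat.findGreatest P M + 1) :=
      ⟨c, p ^ (Nat.findGreatest P M) * d + b, by rw [hab]; ring⟩
    have h2 := key 0 j 0 _ ⟨X 0, 0, by simp⟩ h1
    have h3 := Nat.le_findGreatest (P := P) (n := M) (by omega) h1
    omega
  choose k a b hX ha using hmaxX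
  choose l c d hY hc using hmaxY
  refine ⟨a, c, fun i j => ?_⟩
  have hle := key i j (k i) (l j) ⟨a i, b i, hX i⟩ ⟨c j, d j, hY j⟩
  obtain ⟨m, hm⟩ := Nat.exists_eq_add_of_le hle
  obtain ⟨H, hH⟩ := hXY i j
  have h1 : p ^ (k i + l j) * (a i * c j - p ^ m * e i j) =
      f * (H - (p ^ k i * a i * d j + b i * (p ^ l j * c j) + f * b i * d j)) := by
    have h2 : p ^ M = p ^ k i * p ^ l j * p ^ m := by rw [← pow_add, ← pow_add, hm]
    have h3 : X i * Y j = (p ^ k i * a i + f * b i) * (p ^ l j * c j + f * d j) := by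
      rw [← hX i, ← hY j]
    rw [pow_add]
    rw [h2] at hH
    linear_combination hH - h3
  obtain ⟨u, hu⟩ := pow_dvd_of hp hG _ _ (Dvd.intro _ h1)
  rw [hu] at h1
  have h4 : a i * c j - p ^ m * e i j = f * u := by
    refine sub_eq_zero.1 (hcan (k i + l j) _ ?_)
    linear_combination h1
  have h5 : θ (a i) * θ (c j) = θ p ^ m * θ (e i j) := by
    have h6 := congrArg θ h4
    rw [map_sub, map_mul, map_mul, map_pow, map_mul θ f, hθf, zero_mul, sub_eq_zero] at h6
    exact h6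
  rcases Nat.eq_zero_or_pos m with h | h
  · rw [h, pow_zero, one_mul] at h5
    exact h5
  · rw [hθp, zero_pow h.ne', zero_mul] at h5
    exact absurd h5 (mul_ne_zero (ha i) (hc j))

/-- Clearing denominators. -/
theorem clear_denominators {V B : Type} [CommRing V] [CommRing B] (Φ : V →+* B) (p : V)
    (h : ∀ z : B, ∃ (r : ℕ) (F : V), Φ F = Φ p ^ r * z) (x y : Fin 2 → B)
    (e : Fin 2 → Fin 2 → V) (he : ∀ i j, x i * y j = Φ (e i j)) :
    ∃ (N : ℕ) (X Y : Fin 2 → V), ∀ i j, Φ (X i * Y j - p ^ N * e i j) = 0 := by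
  choose r F hF using h
  let N : ℕ := (∑ i, r (x i)) + ∑ i, r (y i)
  have hx : ∀ i, r (x i) ≤ N := fun i =>
    (Finset.single_le_sum (f := fun i => r (x i)) (fun _ _ => Nat.zero_le _)
      (Finset.mem_univ i)).trans (Nat.le_add_right _ _)
  have hy : ∀ i, r (y i) ≤ N := fun i =>
    (Finset.single_le_sum (f := fun i => r (y i)) (fun _ _ => Nat.zero_le _)
      (Finset.mem_univ i)).trans (Nat.le_add_left _ _)
  have hcomb : ∀ z : B, r z ≤ N → Φ (p ^ (N - r z) * F z) = Φ p ^ N * z := by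
    intro z hz
    rw [map_mul, map_pow, hF, ← mul_assoc, ← pow_add, Nat.sub_add_cancel hz]
  refine ⟨2 * N, fun i => p ^ (N - r (x i)) * F (x i), fun i => p ^ (N - r (y i)) * F (y i),
    fun i j => ?_⟩
  rw [map_sub, map_mul, hcomb _ (hx i), hcomb _ (hy j), map_mul, map_pow, ← he]
  ring

end Core

end Pool.Agent.H872.BQ
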