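import Mathlib

/-!
# Tate algebras, affinoid algebras and restricted power series
-/

set_option autoImplicit false

open Filter Topology MvPowerSeries

namespace Pool.Agent.H872.BQ

section Tate

variable (R : Type) [NormedCommRing R] [IsUltrametricDist R] (n : ℕ)

omit [IsUltrametricDist R] in
theorem isRestricted_iff (f : MvPowerSeries (Fin n) R) :
    IsRestricted (fun _ => 1) f ↔
      Tendsto (fun t : Fin n →₀ ℕ => ‖coeff t f‖) cofinite (𝓝 0) := by
  simp [IsRestricted, Finsupp.prod]

/-- The power series in `n` variables over `R` whose coefficients tend to zero. -/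
def restricted : Subalgebra R (MvPowerSeries (Fin n) R) where
  carrier := {f | Tendsto (fun t : Fin n →₀ ℕ => ‖coeff t f‖) cofinite (𝓝 0)}
  mul_mem' {f g} hf hg := by
    have h := isRestricted.mul (fun _ => 1) ((isRestricted_iff R n f).2 hf)
      ((isRestricted_iff R n g).2 hg)
    exact (isRestricted_iff R n _).1 h
  add_mem' {f g} hf hg := by
    have h := isRestricted.add (fun _ => 1) ((isRestricted_iff R n f).2 hf)
      ((isRestricted_iff R n g).2 hg)
    exact (isRestricted_iff R n _).1 h
  algebraMap_mem' r := (isRestricted_iff R n _).1 (isRestricted_C _ r)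

/-- The ring `R⟨T_1, …, T_n⟩` of the power series in `n` variables whose coefficients tend to zero.
For a complete non-archimedean field this is the Tate algebra. -/
def Tate : Type := restricted R n

/-- `R⟨T_1, …, T_n⟩` is a ring. -/
noncomputable instance instCommRingTate : CommRing (Tate R n) :=
  Subalgebra.toCommRing (restricted R n)

/-- `R⟨T_1, …, T_n⟩` is an `R`-algebra. -/
noncomputable instance instAlgebraTate : Algebra R (Tate R n) :=
  Subalgebra.algebra (restricted R n)

variable {R n}

theorem mem_tate {f : MvPowerSeries (Fin n) R} : f ∈ restricted R n ↔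
    Tendsto (fun t : Fin n →₀ ℕ => ‖coeff t f‖) cofinite (𝓝 0) := Iff.rfl

/-- The variable `T_i`. -/
noncomputable def tvar (i : Fin n) : Tate R n :=
  ⟨MvPowerSeries.X i, (isRestricted_iff R n _).1 (isRestricted_monomial _ _ _)⟩

theorem bdd (f : Tate R n) : BddAbove (Set.range fun t : Fin n →₀ ℕ => ‖coeff t f.1‖) := by
  have h : Tendsto (fun t : Fin n →₀ ℕ => ‖coeff t f.1‖) cofinite (𝓝 0) := f.2
  have h1 : ∀ᶠ t : Fin n →₀ ℕ in cofinite, ‖coeff t f.1‖ < 1 := h.eventually_lt_const one_pos
  have hfin : {t : Fin n →₀ ℕ | ¬ ‖coeff t f.1‖ < 1}.Finite := h1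
  obtain ⟨B, hB⟩ := (hfin.image fun t => ‖coeff t f.1‖).bddAbove
  refine ⟨max B 1, ?_⟩
  rintro _ ⟨t, rfl⟩
  by_cases ht : ‖coeff t f.1‖ < 1
  · exact le_max_of_le_right ht.le
  · exact le_max_of_le_left (hB ⟨t, ht, rfl⟩)

/-- The Gauss norm: the largest norm of a coefficient. -/
noncomputable def gauss (f : Tate R n) : ℝ := ⨆ t : Fin n →₀ ℕ, ‖coeff t f.1‖

theorem le_gauss (f : Tate R n) (t : Fin n →₀ ℕ) : ‖coeff t f.1‖ ≤ gauss f :=
  le_ciSup (bdd f) t

theorem gauss_le {f : Tate R n} {c : ℝ} (h : ∀ t, ‖coeff t f.1‖ ≤ c) : gauss f ≤ c :=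
  ciSup_le h

theorem gauss_nonneg (f : Tate R n) : 0 ≤ gauss f :=
  (norm_nonneg _).trans (le_gauss f 0)

theorem gauss_add_le (f g : Tate R n) : gauss (f + g) ≤ max (gauss f) (gauss g) := by
  refine gauss_le fun t => ?_
  have : coeff t (f + g : Tate R n).1 = coeff t f.1 + coeff t g.1 :=
    map_add (coeff t) f.1 g.1
  rw [this]
  exact (IsUltrametricDist.norm_add_le_max _ _).trans (max_le_max (le_gauss f t) (le_gauss g t))

theorem gauss_mul_le (f g : Tate R n) : gauss (f * g) ≤ gauss f * gauss g := by
  classical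
  refine gauss_le fun t => ?_
  have h1 : coeff t (f * g : Tate R n).1 =
      ∑ p ∈ Finset.HasAntidiagonal.antidiagonal t, coeff p.1 f.1 * coeff p.2 g.1 :=
    MvPowerSeries.coeff_mul _ _ _
  rw [h1]
  refine IsUltrametricDist.norm_sum_le_of_forall_le_of_nonneg
    (mul_nonneg (gauss_nonneg f) (gauss_nonneg g)) fun p _ => ?_
  exact (norm_mul_le _ _).trans (mul_le_mul (le_gauss f _) (le_gauss g _) (norm_nonneg _)
    (gauss_nonneg f))

theorem gauss_zero : gauss (0 : Tate R n) = 0 := by
  have h : ∀ t : Fin n →₀ ℕ, ‖coeff t (0 : Tate R n).1‖ = 0 := by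
    intro t
    have : coeff t (0 : Tate R n).1 = 0 := map_zero (coeff (R := R) t)
    rw [this, norm_zero]
  simp only [gauss, h, ciSup_const]

theorem gauss_neg (f : Tate R n) : gauss (-f) = gauss f := by
  have h : ∀ t : Fin n →₀ ℕ, ‖coeff t (-f : Tate R n).1‖ = ‖coeff t f.1‖ := by
    intro t
    have : coeff t (-f : Tate R n).1 = -coeff t f.1 := map_neg (coeff t) f.1
    rw [this, norm_neg]
  simp only [gauss, h]

theorem eq_zero_of_gauss (f : Tate R n) (hf : gauss f = 0) : f = 0 := by
  apply Subtype.ext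
  ext t
  have h1 := le_gauss f t
  rw [hf] at h1
  exact norm_le_zero_iff.1 h1

variable (R n)

/-- The Gauss norm as a ring norm. -/
noncomputable def gaussNorm : RingNorm (Tate R n) where
  toFun := gauss
  map_zero' := gauss_zero
  add_le' f g := (gauss_add_le f g).trans
    (max_le (le_add_of_nonneg_right (gauss_nonneg g)) (le_add_of_nonneg_left (gauss_nonneg f)))
  neg' := gauss_neg
  mul_le' := gauss_mul_le
  eq_zero_of_map_eq_zero' := eq_zero_of_gauss

/-- `R⟨T_1, …, T_n⟩` is a normed ring with the Gauss norm. -/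
noncomputable instance instNormedTate : NormedCommRing (Tate R n) :=
  { (gaussNorm R n).toNormedRing with mul_comm := mul_comm }

variable {R n}

theorem norm_eq (f : Tate R n) : ‖f‖ = gauss f := rfl

end Tate

section Angle

variable {R : Type} [NormedCommRing R] [IsUltrametricDist R] {n : ℕ}

/-- The affinoid algebra `A = k⟨T_1, …, T_n⟩ / I`. -/
def Aff (I : Ideal (Tate R n)) : Type := Tate R n ⧸ I

/-- `A = k⟨T_1, …, T_n⟩ / I` carries the quotient norm of the Gauss norm. -/
noncomputable instance instNormedAff (I : Ideal (Tate R n)) : SeminormedCommRing (Aff I) :=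
  Ideal.Quotient.semiNormedCommRing I

/-- The quotient map. -/
noncomputable def toAff (I : Ideal (Tate R n)) : Tate R n →+* Aff I := Ideal.Quotient.mk I

/-- A series over a quotient `A` of a Tate algebra has coefficients tending to zero in the quotient
norm if and only if it lifts to a series over the Tate algebra with coefficients tending to zero. -/
theorem tendsto_iff_lift (I : Ideal (Tate R n)) (F : PowerSeries (Aff I)) :
    Tendsto (fun i => ‖PowerSeries.coeff i F‖) atTop (𝓝 0) ↔
      ∃ f : PowerSeries (Tate R n), Tendsto (fun i => ‖PowerSeries.coeff i f‖) atTop (𝓝 0) ∧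
        PowerSeries.map (toAff I) f = F := by
  constructor
  · intro h
    have h1 : ∀ i : ℕ, ∃ g : Tate R n, toAff I g = PowerSeries.coeff i F ∧
        ‖g‖ < ‖PowerSeries.coeff i F‖ + 1 / ((i : ℝ) + 1) := fun i =>
      Ideal.Quotient.norm_mk_lt (I := I) (PowerSeries.coeff i F) (by positivity)
    choose g hg hg2 using h1
    refine ⟨PowerSeries.mk g, ?_, ?_⟩
    · have h2 : Tendsto (fun i : ℕ => ‖PowerSeries.coeff i F‖ + 1 / ((i : ℝ) + 1)) atTop (𝓝 0) := by
        simpa using h.add tendsto_one_div_add_atTop_nhds_zero_nat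
      refine squeeze_zero (fun i => norm_nonneg _) (fun i => ?_) h2
      rw [PowerSeries.coeff_mk]
      exact (hg2 i).le
    · ext i
      rw [PowerSeries.coeff_map, PowerSeries.coeff_mk, hg]
  · rintro ⟨f, hf, rfl⟩
    refine squeeze_zero (fun i => norm_nonneg _) (fun i => ?_) hf
    rw [PowerSeries.coeff_map]
    exact Ideal.Quotient.norm_mk_le _ _

instance : IsUltrametricDist (Tate R n) :=
  IsUltrametricDist.isUltrametricDist_of_forall_norm_add_le_max_norm fun f g => gauss_add_le f g

theorem tendsto_mul {f g : PowerSeries (Tate R n)}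
    (hf : Tendsto (fun i => ‖PowerSeries.coeff i f‖) atTop (𝓝 0))
    (hg : Tendsto (fun i => ‖PowerSeries.coeff i g‖) atTop (𝓝 0)) :
    Tendsto (fun i => ‖PowerSeries.coeff i (f * g)‖) atTop (𝓝 0) := by
  have h := PowerSeries.isRestricted.mul (1 : ℝ) (f := f) (g := g)
    ((PowerSeries.isRestricted_iff' 1 f).2 (by simpa using hf))
    ((PowerSeries.isRestricted_iff' 1 g).2 (by simpa using hg))
  simpa using (PowerSeries.isRestricted_iff' 1 (f * g)).1 h

/-- The coefficients of the power series `F` over `A = k⟨T_1, …, T_n⟩ / I` tend to zero. -/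
def Vanishing (I : Ideal (Tate R n)) (F : PowerSeries (Aff I)) : Prop :=
  Tendsto (fun i => ‖PowerSeries.coeff i F‖) atTop (𝓝 0)

theorem vanishing_add {I : Ideal (Tate R n)} {F G : PowerSeries (Aff I)} (hF : Vanishing I F)
    (hG : Vanishing I G) : Vanishing I (F + G) := by
  have h : Tendsto (fun i => ‖PowerSeries.coeff i F‖ + ‖PowerSeries.coeff i G‖) atTop (𝓝 0) := by
    simpa using Tendsto.add hF hG
  refine squeeze_zero (fun i => norm_nonneg _) (fun i => ?_) h
  rw [map_add]
  exact norm_add_le _ _

theorem vanishing_mul {I : Ideal (Tate R n)} {F G : PowerSeries (Aff I)} (hF : Vanishing I F)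
    (hG : Vanishing I G) : Vanishing I (F * G) := by
  obtain ⟨f, hf, rfl⟩ := (tendsto_iff_lift I F).1 hF
  obtain ⟨g, hg, rfl⟩ := (tendsto_iff_lift I G).1 hG
  exact (tendsto_iff_lift I _).2 ⟨f * g, tendsto_mul hf hg, map_mul _ _ _⟩

theorem vanishing_C (I : Ideal (Tate R n)) (a : Aff I) : Vanishing I (PowerSeries.C a) := by
  have h : ∀ᶠ i in atTop, ‖PowerSeries.coeff i (PowerSeries.C a)‖ = 0 := by
    filter_upwards [eventually_gt_atTop 0] with i hi
    rw [PowerSeries.coeff_C, if_neg hi.ne', norm_zero]
  exact tendsto_const_nhds.congr' (h.mono fun i hi => hi.symm)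

theorem vanishing_zero (I : Ideal (Tate R n)) : Vanishing I 0 := by
  have := vanishing_C I 0
  rwa [map_zero] at this

theorem vanishing_one (I : Ideal (Tate R n)) : Vanishing I 1 := by
  have := vanishing_C I 1
  rwa [map_one] at this

/-- The power series in `T` over the affinoid algebra `A = k⟨T_1, …, T_n⟩ / I` whose coefficients
tend to zero. -/
def angle (I : Ideal (Tate R n)) : Subalgebra (Aff I) (PowerSeries (Aff I)) where
  carrier := {F | Vanishing I F}
  mul_mem' := vanishing_mul
  one_mem' := vanishing_one I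
  zero_mem' := vanishing_zero I
  add_mem' := vanishing_add
  algebraMap_mem' := vanishing_C I

/-- The ring `A⟨T⟩` over the affinoid algebra `A = k⟨T_1, …, T_n⟩ / I`: the power series in `T`
over `A` whose coefficients tend to zero in the quotient norm. -/
def AffT (I : Ideal (Tate R n)) : Type := angle I

/-- `A⟨T⟩` is a ring. -/
noncomputable instance instCommRingAffT (I : Ideal (Tate R n)) : CommRing (AffT I) :=
  Subalgebra.toCommRing (angle I)

/-- `A⟨T⟩` is an algebra over `A`. -/
noncomputable instance instAlgebraAffT (I : Ideal (Tate R n)) : Algebra (Aff I) (AffT I) :=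
  Subalgebra.algebra (angle I)

open TensorProduct in
/-- The `A⟨T⟩`-module `M` is extended from `A`: it is isomorphic to `A⟨T⟩ ⊗_A N` for some
`A`-module `N`. -/
def IsExtended (I : Ideal (Tate R n)) (M : Type) [AddCommGroup M] [Module (AffT I) M] : Prop :=
  ∃ (N : Type) (_ : AddCommGroup N) (_ : Module (Aff I) N),
    Nonempty (M ≃ₗ[AffT I] (AffT I) ⊗[Aff I] N)

end Angle

section Smooth

variable {k : Type} [NormedField k] [IsUltrametricDist k] {n : ℕ}

/-- The partial derivative `∂f/∂T_i` of a restricted power series. -/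
noncomputable def pd (i : Fin n) (f : Tate k n) : Tate k n :=
  ⟨fun t => ((t i : k) + 1) * coeff (t + Finsupp.single i 1) f.1, by
    have hinj : Function.Injective fun t : Fin n →₀ ℕ => t + Finsupp.single i 1 :=
      fun a b hab => add_right_cancel hab
    have h1 : Tendsto (fun t : Fin n →₀ ℕ => ‖coeff (t + Finsupp.single i 1) f.1‖) cofinite
        (𝓝 0) := Tendsto.comp (g := fun t : Fin n →₀ ℕ => ‖coeff t f.1‖) f.2 hinj.tendsto_cofinite
    refine squeeze_zero (fun t => norm_nonneg _) (fun t => ?_) h1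
    have h2 : ‖((t i : k) + 1)‖ ≤ 1 := by
      have := IsUltrametricDist.norm_natCast_le_one k (t i + 1)
      simpa using this
    have h3 : coeff t (fun t : Fin n →₀ ℕ => ((t i : k) + 1) *
        coeff (t + Finsupp.single i 1) f.1 : MvPowerSeries (Fin n) k) =
        ((t i : k) + 1) * coeff (t + Finsupp.single i 1) f.1 := rfl
    rw [h3, norm_mul]
    exact mul_le_of_le_one_left (norm_nonneg _) h2⟩

/-- The Jacobian criterion: the affinoid algebra `k⟨T_1, …, T_n⟩ / I` is smooth over `k`.  At every
maximal ideal `m ⊇ I` the ideal `I_m` is generated by elements `g_1, …, g_r` of `I` such that some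
`r × r` minor of the matrix of their partial derivatives is not in `m`. -/
def IsSmooth (I : Ideal (Tate k n)) : Prop :=
  ∀ m : Ideal (Tate k n), m.IsMaximal → I ≤ m →
    ∃ (r : ℕ) (g : Fin r → Tate k n) (c : Fin r → Fin n),
      (∀ i, g i ∈ I) ∧ (∀ x ∈ I, ∃ s ∉ m, s * x ∈ Ideal.span (Set.range g)) ∧
      (Matrix.of fun i j => pd (c j) (g i)).det ∉ m

/-- The ideal of `k⟨X, Y⟩` that defines the affinoid curve `Y² = X³ + a`. -/
noncomputable def curve (a : k) : Ideal (Tate k 2) :=
  Ideal.span {tvar 1 ^ 2 - tvar 0 ^ 3 - algebraMap k (Tate k 2) a}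

end Smooth

end Pool.Agent.H872.BQ
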