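import Mathlib

/-!
# The cusp: the map `κ[X, Y] → κ[s]`, `X ↦ s²`, `Y ↦ s³`
-/

set_option autoImplicit false

open Polynomial

namespace Pool.Agent.H872.BQ

section Cusp

variable (κ : Type) [Field κ]

/-- The normalisation of the cusp. -/
noncomputable def psi : MvPolynomial (Fin 2) κ →+* κ[X] :=
  MvPolynomial.eval₂Hom (C : κ →+* κ[X]) ![X ^ 2, X ^ 3]

variable {κ}

theorem psi_C (a : κ) : psi κ (MvPolynomial.C a) = C a := by simp [psi]

theorem psi_X0 : psi κ (MvPolynomial.X 0) = X ^ 2 := by simp [psi]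

theorem psi_X1 : psi κ (MvPolynomial.X 1) = X ^ 3 := by simp [psi]

theorem coeff_one_mul_zero {f g : κ[X]} (hf : f.coeff 1 = 0) (hg : g.coeff 1 = 0) :
    (f * g).coeff 1 = 0 := by
  rw [mul_coeff_one, hf, hg, mul_zero, zero_mul, add_zero]

theorem coeff_one_psi (P : MvPolynomial (Fin 2) κ) : (psi κ P).coeff 1 = 0 := by
  induction P using MvPolynomial.induction_on with
  | C a => rw [psi_C, coeff_C, if_neg one_ne_zero]
  | add P Q hP hQ => rw [map_add, coeff_add, hP, hQ, add_zero]
  | mul_X P i hP =>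
    rw [map_mul]
    refine coeff_one_mul_zero hP ?_
    fin_cases i
    · change (psi κ (MvPolynomial.X 0)).coeff 1 = 0
      rw [psi_X0, coeff_X_pow]; simp
    · change (psi κ (MvPolynomial.X 1)).coeff 1 = 0
      rw [psi_X1, coeff_X_pow]; simp

/-- A polynomial in the first variable. -/
noncomputable def inX : κ[X] →+* MvPolynomial (Fin 2) κ :=
  eval₂RingHom MvPolynomial.C (MvPolynomial.X 0)

theorem inX_X : inX (X : κ[X]) = MvPolynomial.X 0 := by simp [inX]

theorem inX_C (a : κ) : inX (C a : κ[X]) = MvPolynomial.C a := by simp [inX]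

theorem psi_inX (A : κ[X]) : psi κ (inX A) = expand κ 2 A := by
  induction A using Polynomial.induction_on with
  | C a => rw [inX_C, psi_C, expand_C]
  | add P Q hP hQ => rw [map_add, map_add, map_add, hP, hQ]
  | monomial n a h =>
    rw [map_mul, map_pow, inX_C, inX_X, map_mul, map_pow, psi_C, psi_X0, map_mul, map_pow,
      expand_C, expand_X]

/-- The normal form modulo `Y² - X³`. -/
theorem normal_form (P : MvPolynomial (Fin 2) κ) : ∃ (A B : κ[X]) (Q : MvPolynomial (Fin 2) κ),
    P = inX A + inX B * MvPolynomial.X 1 +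
      (MvPolynomial.X 1 ^ 2 - MvPolynomial.X 0 ^ 3) * Q := by
  induction P using MvPolynomial.induction_on with
  | C a => exact ⟨C a, 0, 0, by rw [inX_C, map_zero]; ring⟩
  | add P Q hP hQ =>
    obtain ⟨A, B, R, h⟩ := hP
    obtain ⟨A', B', R', h'⟩ := hQ
    exact ⟨A + A', B + B', R + R', by rw [h, h', map_add, map_add]; ring⟩
  | mul_X P i hP =>
    obtain ⟨A, B, R, h⟩ := hP
    fin_cases i
    · refine ⟨A * X, B * X, R * MvPolynomial.X 0, ?_⟩
      change P * MvPolynomial.X 0 = _
      rw [h, map_mul, map_mul, inX_X]; ring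
    · refine ⟨B * X ^ 3, A, R * MvPolynomial.X 1 + inX B, ?_⟩
      change P * MvPolynomial.X 1 = _
      rw [h, map_mul, map_pow, inX_X]; ring

theorem ker_psi (P : MvPolynomial (Fin 2) κ) (h : psi κ P = 0) :
    ∃ Q, P = (MvPolynomial.X 1 ^ 2 - MvPolynomial.X 0 ^ 3) * Q := by
  obtain ⟨A, B, Q, hP⟩ := normal_form P
  rw [hP, map_add, map_add, map_mul, map_mul, map_sub, map_pow, map_pow, psi_X0, psi_X1,
    psi_inX, psi_inX] at h
  have h1 : expand κ 2 A + expand κ 2 B * X ^ 3 = 0 := by
    have h2 : ((X : κ[X]) ^ 3) ^ 2 - (X ^ 2) ^ 3 = 0 := by ring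
    rw [h2, zero_mul, add_zero] at h
    exact h
  have hA : A = 0 := by
    ext n
    have h2 := congrArg (fun q : κ[X] => q.coeff (n * 2)) h1
    simp only [coeff_add, coeff_zero] at h2
    rw [coeff_expand_mul (by norm_num), coeff_mul_X_pow'] at h2
    split_ifs at h2 with h3
    · rw [coeff_expand (by norm_num), if_neg (by omega), add_zero] at h2
      rw [h2, coeff_zero]
    · rw [add_zero] at h2
      rw [h2, coeff_zero]
  have hB : B = 0 := by
    rw [hA, map_zero, zero_add] at h1
    rcases mul_eq_zero.1 h1 with h2 | h2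
    · exact (expand_eq_zero (by norm_num)).1 h2
    · exact absurd h2 (pow_ne_zero _ X_ne_zero)
  exact ⟨Q, by rw [hP, hA, hB]; simp⟩

theorem cusp_ne_zero : (MvPolynomial.X 1 ^ 2 - MvPolynomial.X 0 ^ 3 : MvPolynomial (Fin 2) κ) ≠ 0 := by
  intro h
  have h1 := congrArg (MvPolynomial.eval (![0, 1] : Fin 2 → κ)) h
  simp at h1

/-- The final contradiction: there is no factorisation of the matrix at `T = 1`. -/
theorem no_factor (α β γ δ : κ[X]) (hβ : β.coeff 1 = 0) (h1 : α * γ = 1 + X ^ 3)
    (h2 : α * δ = 1 + X ^ 2 + X ^ 4) (h3 : β * γ = 1 - X ^ 2) (h4 : β * δ = 1 - X ^ 3) :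
    False := by
  have h5 : β * (δ - X * γ) = 1 - X := by linear_combination h4 - X * h3
  have hne : (1 - X : κ[X]) ≠ 0 := by
    intro h
    have := congrArg (fun q : κ[X] => q.coeff 0) h
    simp at this
  have hdeg : β.natDegree ≤ 1 := by
    have h6 : β ∣ (1 - X : κ[X]) := Dvd.intro _ h5
    refine (natDegree_le_of_dvd h6 hne).trans ?_
    refine (natDegree_sub_le _ _).trans ?_
    simp
  have hβC : β = C (β.coeff 0) := by
    rw [eq_X_add_C_of_natDegree_le_one hdeg, hβ]
    simp
  have hb : β.coeff 0 ≠ 0 := by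
    intro h
    rw [h, C_0] at hβC
    rw [hβC, zero_mul] at h5
    exact hne h5.symm
  have e1 := congrArg (eval 1) h1
  have e2 := congrArg (eval 1) h2
  have e3 := congrArg (eval 1) h3
  have e4 := congrArg (eval 1) h4
  rw [hβC] at e3 e4
  simp only [eval_mul, eval_add, eval_sub, eval_pow, eval_X, eval_one, eval_C, one_pow,
    sub_self] at e1 e2 e3 e4
  have g1 : eval 1 γ = 0 := by
    rcases mul_eq_zero.1 e3 with h | h
    · exact absurd h hb
    · exact h
  have g2 : eval 1 δ = 0 := by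
    rcases mul_eq_zero.1 e4 with h | h
    · exact absurd h hb
    · exact h
  rw [g1, mul_zero] at e1
  rw [g2, mul_zero] at e2
  have : (1 : κ) = 0 := by linear_combination e1 - e2
  exact one_ne_zero this

end Cusp

end Pool.Agent.H872.BQ
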