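import Mathlib

/-!
# Series with `π`-adically small coefficients, and their reductions
-/

set_option autoImplicit false

open Filter MvPowerSeries

namespace Pool.Agent.H872.BQ

section Res

variable (σ : Type) (R : Type) [CommRing R] (π : R)

/-- The ring of the power series over `R` whose coefficients tend to zero `π`-adically. -/
def res : Subring (MvPowerSeries σ R) where
  carrier := {f | ∀ r : ℕ, ∀ᶠ t in (cofinite : Filter (σ →₀ ℕ)), π ^ r ∣ coeff t f}
  mul_mem' {f g} hf hg r := by
    classical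
    have h1 : {t : σ →₀ ℕ | ¬ π ^ r ∣ coeff t f}.Finite := hf r
    have h2 : {t : σ →₀ ℕ | ¬ π ^ r ∣ coeff t g}.Finite := hg r
    have h3 := h1.add h2
    refine h3.subset fun t ht => ?_
    by_contra hcon
    refine ht ?_
    change π ^ r ∣ coeff t (f * g)
    rw [MvPowerSeries.coeff_mul]
    refine Finset.dvd_sum fun p hp => ?_
    rw [Finset.HasAntidiagonal.mem_antidiagonal] at hp
    by_cases hf1 : π ^ r ∣ coeff p.1 f
    · exact hf1.mul_right _
    · by_cases hg1 : π ^ r ∣ coeff p.2 g
      · exact hg1.mul_left _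
      · exact absurd ⟨p.1, hf1, p.2, hg1, hp⟩ hcon
  one_mem' r := by
    classical
    refine (Set.finite_singleton (0 : σ →₀ ℕ)).subset fun t ht => ?_
    by_contra hcon
    refine ht ?_
    change π ^ r ∣ coeff t (1 : MvPowerSeries σ R)
    have hcon' : t ≠ 0 := hcon
    rw [MvPowerSeries.coeff_one, if_neg hcon']
    exact dvd_zero _
  add_mem' {f g} hf hg r := by
    filter_upwards [hf r, hg r] with t h1 h2
    rw [map_add]
    exact dvd_add h1 h2
  zero_mem' r := by simp
  neg_mem' {f} hf r := by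
    filter_upwards [hf r] with t h1
    rw [map_neg]
    exact h1.neg_right

variable {σ R π}

theorem mem_res {f : MvPowerSeries σ R} :
    f ∈ res σ R π ↔ ∀ r : ℕ, ∀ᶠ t in (cofinite : Filter (σ →₀ ℕ)), π ^ r ∣ coeff t f := Iff.rfl

theorem monomial_mem (s : σ →₀ ℕ) (a : R) : monomial s a ∈ res σ R π := by
  classical
  intro r
  refine (Set.finite_singleton s).subset fun t ht => ?_
  by_contra hcon
  refine ht ?_
  change π ^ r ∣ coeff t (monomial s a)
  have hcon' : t ≠ s := hcon
  rw [MvPowerSeries.coeff_monomial, if_neg hcon']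
  exact dvd_zero _

variable (σ π) in
/-- Constants. -/
noncomputable def cst : R →+* res σ R π where
  toFun a := ⟨C a, monomial_mem 0 a⟩
  map_one' := Subtype.ext (map_one _)
  map_mul' a b := Subtype.ext (map_mul _ a b)
  map_zero' := Subtype.ext (map_zero _)
  map_add' a b := Subtype.ext (map_add _ a b)

theorem coeff_cst_mul (a : R) (f : res σ R π) (t : σ →₀ ℕ) :
    coeff t (cst σ π a * f : res σ R π).1 = a * coeff t f.1 := by
  change coeff t (C a * f.1) = _
  exact MvPowerSeries.coeff_C_mul _ _ _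

theorem ext_coeff {f g : res σ R π} (h : ∀ t, coeff t f.1 = coeff t g.1) : f = g :=
  Subtype.ext (MvPowerSeries.ext h)

theorem pow_cancel (hπ : ∀ x : R, π * x = 0 → x = 0) (s : ℕ) : ∀ x : R, π ^ s * x = 0 → x = 0 := by
  induction s with
  | zero => intro x hx; simpa using hx
  | succ s ih =>
    intro x hx
    refine ih x (hπ _ ?_)
    rw [← mul_assoc, ← pow_succ']
    exact hx

/-- Division by a power of `π`. -/
theorem exists_eq_pow_mul (hπ : ∀ x : R, π * x = 0 → x = 0) (s : ℕ) (h : res σ R π)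
    (hd : ∀ t, π ^ s ∣ coeff t h.1) : ∃ g : res σ R π, h = cst σ π (π ^ s) * g := by
  choose c hc using hd
  have hmem : (fun t => c t : MvPowerSeries σ R) ∈ res σ R π := by
    intro r
    filter_upwards [h.2 (s + r)] with t ht
    obtain ⟨d, hd⟩ := ht
    refine ⟨d, ?_⟩
    change c t = _
    have h1 : π ^ s * (c t - π ^ r * d) = 0 := by
      have h2 := hc t
      rw [hd] at h2
      rw [pow_add] at h2
      linear_combination -h2
    exact sub_eq_zero.1 (pow_cancel hπ s _ h1)
  refine ⟨⟨_, hmem⟩, ext_coeff fun t => ?_⟩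
  rw [coeff_cst_mul]
  exact hc t

theorem cst_cancel {a : R} (ha : ∀ x : R, a * x = 0 → x = 0) (f : res σ R π)
    (h : cst σ π a * f = 0) : f = 0 := by
  refine ext_coeff fun t => ?_
  have h1 := coeff_cst_mul (σ := σ) (π := π) a f t
  rw [h] at h1
  exact ha _ h1.symm

section Red

variable {K : Type} [CommRing K] (ρ : R →+* K)

theorem exists_poly (hρ : ρ π = 0) (f : res σ R π) :
    ∃ P : MvPolynomial σ K, (P : MvPowerSeries σ K) = MvPowerSeries.map ρ f.1 := by
  classical
  have h1 : {t : σ →₀ ℕ | ¬ π ^ 1 ∣ coeff t f.1}.Finite := f.2 1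
  refine ⟨∑ t ∈ h1.toFinset, MvPolynomial.monomial t (ρ (coeff t f.1)), ?_⟩
  ext s
  rw [MvPolynomial.coeff_coe, MvPolynomial.coeff_sum, MvPowerSeries.coeff_map]
  simp only [MvPolynomial.coeff_monomial]
  rw [Finset.sum_ite_eq']
  split_ifs with h
  · rfl
  · have h2 : π ^ 1 ∣ coeff s f.1 := by
      by_contra hcon
      exact h (h1.mem_toFinset.2 hcon)
    obtain ⟨c, hc⟩ := h2
    rw [hc, pow_one, map_mul, hρ, zero_mul]

/-- The reduction map. -/
noncomputable def red (hρ : ρ π = 0) : res σ R π →+* MvPolynomial σ K where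
  toFun f := (exists_poly ρ hρ f).choose
  map_one' := by
    apply MvPolynomial.coe_injective
    rw [(exists_poly ρ hρ 1).choose_spec, MvPolynomial.coe_one]
    exact map_one _
  map_mul' f g := by
    apply MvPolynomial.coe_injective
    rw [(exists_poly ρ hρ (f * g)).choose_spec, MvPolynomial.coe_mul,
      (exists_poly ρ hρ f).choose_spec, (exists_poly ρ hρ g).choose_spec]
    exact map_mul _ _ _
  map_zero' := by
    apply MvPolynomial.coe_injective
    rw [(exists_poly ρ hρ 0).choose_spec, MvPolynomial.coe_zero]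
    exact map_zero _
  map_add' f g := by
    apply MvPolynomial.coe_injective
    rw [(exists_poly ρ hρ (f + g)).choose_spec, MvPolynomial.coe_add,
      (exists_poly ρ hρ f).choose_spec, (exists_poly ρ hρ g).choose_spec]
    exact map_add _ _ _

theorem coeff_red (hρ : ρ π = 0) (f : res σ R π) (t : σ →₀ ℕ) :
    MvPolynomial.coeff t (red ρ hρ f) = ρ (coeff t f.1) := by
  rw [← MvPolynomial.coeff_coe]
  have h : (red ρ hρ f : MvPowerSeries σ K) = MvPowerSeries.map ρ f.1 :=
    (exists_poly ρ hρ f).choose_spec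
  rw [h, MvPowerSeries.coeff_map]

theorem red_cst (hρ : ρ π = 0) (a : R) : red ρ hρ (cst σ π a) = MvPolynomial.C (ρ a) := by
  classical
  ext t
  rw [coeff_red, MvPolynomial.coeff_C]
  change ρ (coeff t (C a)) = _
  rw [MvPowerSeries.coeff_C]
  by_cases h : t = 0
  · rw [if_pos h, if_pos h.symm]
  · rw [if_neg h, if_neg (Ne.symm h), map_zero]

theorem red_monomial (hρ : ρ π = 0) (s : σ →₀ ℕ) (a : R) :
    red ρ hρ ⟨monomial s a, monomial_mem s a⟩ = MvPolynomial.monomial s (ρ a) := by
  classical
  ext t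
  rw [coeff_red, MvPolynomial.coeff_monomial]
  change ρ (coeff t (monomial s a)) = _
  rw [MvPowerSeries.coeff_monomial]
  by_cases h : t = s
  · rw [if_pos h, if_pos h.symm]
  · rw [if_neg h, if_neg (Ne.symm h), map_zero]

/-- The kernel of the reduction map, if the kernel on the coefficients is `(π, F)`. -/
theorem ker_red (hρ : ρ π = 0) (hπ : ∀ x : R, π * x = 0 → x = 0) (F : R)
    (hker : ∀ w, ρ w = 0 → ∃ a b, w = π * a + F * b) (x : res σ R π)
    (hx : red ρ hρ x = 0) : ∃ a b : res σ R π, x = cst σ π π * a + cst σ π F * b := by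
  classical
  have h0 : ∀ t, ρ (coeff t x.1) = 0 := by
    intro t
    rw [← coeff_red ρ hρ, hx, MvPolynomial.coeff_zero]
  have h1 : ∀ t, ∃ a b, coeff t x.1 = π * a + F * b ∧ (π ∣ coeff t x.1 → b = 0) := by
    intro t
    by_cases hd : π ∣ coeff t x.1
    · obtain ⟨a, ha⟩ := hd
      exact ⟨a, 0, by rw [ha, mul_zero, add_zero], fun _ => rfl⟩
    · obtain ⟨a, b, hab⟩ := hker _ (h0 t)
      exact ⟨a, b, hab, fun h => absurd h hd⟩
  choose a b hab hb using h1
  have hbmem : (fun t => b t : MvPowerSeries σ R) ∈ res σ R π := by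
    intro r
    filter_upwards [x.2 1] with t ht
    rw [pow_one] at ht
    change _ ∣ b t
    rw [hb t ht]
    exact dvd_zero _
  have hamem : (fun t => a t : MvPowerSeries σ R) ∈ res σ R π := by
    intro r
    filter_upwards [x.2 (r + 1), x.2 1] with t ht ht1
    rw [pow_one] at ht1
    change _ ∣ a t
    obtain ⟨d, hd⟩ := ht
    refine ⟨d, ?_⟩
    have h2 := hab t
    rw [hb t ht1, hd, pow_succ] at h2
    have h3 : π * (a t - π ^ r * d) = 0 := by linear_combination -h2
    exact sub_eq_zero.1 (hπ _ h3)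
  refine ⟨⟨_, hamem⟩, ⟨_, hbmem⟩, ext_coeff fun t => ?_⟩
  have h4 : coeff t (cst σ π π * ⟨_, hamem⟩ + cst σ π F * ⟨_, hbmem⟩ : res σ R π).1 =
      coeff t (cst σ π π * ⟨_, hamem⟩ : res σ R π).1 +
      coeff t (cst σ π F * ⟨_, hbmem⟩ : res σ R π).1 := map_add _ _ _
  rw [h4, coeff_cst_mul, coeff_cst_mul]
  exact hab t

/-- The reduction map is surjective if it is surjective on the coefficients. -/
theorem red_surjective (hρ : ρ π = 0) (hs : Function.Surjective ρ) :
    Function.Surjective (red (σ := σ) ρ hρ) := by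
  classical
  intro P
  have h1 : ∀ k : K, ∃ r : R, ρ r = k ∧ (k = 0 → r = 0) := by
    intro k
    by_cases hk : k = 0
    · exact ⟨0, by rw [hk, map_zero], fun _ => rfl⟩
    · obtain ⟨r, hr⟩ := hs k
      exact ⟨r, hr, fun h => absurd h hk⟩
  choose l hl hl0 using h1
  have hmem : (fun t => l (MvPolynomial.coeff t P) : MvPowerSeries σ R) ∈ res σ R π := by
    intro r
    refine (P.support.finite_toSet).subset fun t ht => ?_
    by_contra hcon
    refine ht ?_
    change _ ∣ l (MvPolynomial.coeff t P)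
    have h2 : MvPolynomial.coeff t P = 0 := by
      by_contra hne
      exact hcon (Finset.mem_coe.2 (MvPolynomial.mem_support_iff.2 hne))
    rw [hl0 _ h2]
    exact dvd_zero _
  refine ⟨⟨_, hmem⟩, ?_⟩
  ext t
  rw [coeff_red]
  exact hl _

end Red

end Res

end Pool.Agent.H872.BQ
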