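import Pool.Agent.H872.BQ.Defs
import Pool.Agent.H872.BQ.Res
import Pool.Agent.H872.BQ.Poly
import Pool.Agent.H872.BQ.Core

/-!
# The integral subring `ℤ_p⟨X, Y⟩` of `ℚ_p⟨X, Y⟩`
-/

set_option autoImplicit false

open Filter Topology MvPowerSeries

namespace Pool.Agent.H872.BQ

section Int

variable (p : ℕ) [Fact p.Prime]

theorem dvd_iff_norm (x : ℤ_[p]) (r : ℕ) :
    (p : ℤ_[p]) ^ r ∣ x ↔ ‖x‖ ≤ (p : ℝ) ^ (-(r : ℤ)) := by
  rw [PadicInt.norm_le_pow_iff_mem_span_pow, Ideal.mem_span_singleton]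

theorem eventually_dvd_iff {α : Type} (l : Filter α) (c : α → ℤ_[p]) :
    (∀ r : ℕ, ∀ᶠ a in l, (p : ℤ_[p]) ^ r ∣ c a) ↔ Tendsto (fun a => ‖c a‖) l (𝓝 0) := by
  rw [Metric.tendsto_nhds]
  constructor
  · intro h ε hε
    obtain ⟨r, hr⟩ := PadicInt.exists_pow_neg_lt p hε
    filter_upwards [h r] with a ha
    rw [dvd_iff_norm] at ha
    simpa using ha.trans_lt hr
  · intro h r
    have hp : (0 : ℝ) < p := by exact_mod_cast (Fact.out : p.Prime).pos
    filter_upwards [h _ (zpow_pos hp (-(r : ℤ)))] with a ha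
    rw [dvd_iff_norm]
    have := ha.le
    simpa using this

/-- The ring `ℤ_p⟨X, Y⟩`. -/
abbrev W0 : Type := res (Fin 2) ℤ_[p] (p : ℤ_[p])

/-- The inclusion of `ℤ_p⟨X, Y⟩` in `ℚ_p⟨X, Y⟩`. -/
noncomputable def iota : W0 p →+* Tate ℚ_[p] 2 :=
  RingHom.codRestrict ((MvPowerSeries.map (PadicInt.Coe.ringHom (p := p))).comp
    (res (Fin 2) ℤ_[p] (p : ℤ_[p])).subtype) (restricted ℚ_[p] 2) (by
      intro f
      have h := (eventually_dvd_iff p cofinite (fun t => coeff t f.1)).1 f.2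
      refine (tendsto_congr fun t => ?_).1 h
      change ‖coeff t f.1‖ = ‖coeff t (MvPowerSeries.map (PadicInt.Coe.ringHom (p := p)) f.1)‖
      rw [MvPowerSeries.coeff_map]
      rfl)

variable {p}

theorem coeff_iota (w : W0 p) (t : Fin 2 →₀ ℕ) :
    coeff t (iota p w).1 = ((coeff t w.1 : ℤ_[p]) : ℚ_[p]) := by
  change coeff t (MvPowerSeries.map (PadicInt.Coe.ringHom (p := p)) w.1) = _
  rw [MvPowerSeries.coeff_map]
  rfl

theorem iota_injective : Function.Injective (iota p) := by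
  intro a b hab
  refine ext_coeff fun t => ?_
  have h := congrArg (fun w : Tate ℚ_[p] 2 => coeff t w.1) hab
  simp only [coeff_iota] at h
  exact Subtype.ext h

theorem p_cancel (x : ℤ_[p]) (h : (p : ℤ_[p]) * x = 0) : x = 0 := by
  rcases mul_eq_zero.1 h with h1 | h1
  · exact absurd h1 (by exact_mod_cast (Fact.out : p.Prime).ne_zero)
  · exact h1

theorem cst_p : cst (Fin 2) (p : ℤ_[p]) (p : ℤ_[p]) = (p : W0 p) := map_natCast _ _

theorem W0_cancel (x : W0 p) (h : (p : W0 p) * x = 0) : x = 0 := by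
  rw [← cst_p] at h
  exact cst_cancel p_cancel x h

theorem W0_dvd_iff_coeff (w : W0 p) (r : ℕ) :
    (p : W0 p) ^ r ∣ w ↔ ∀ t, (p : ℤ_[p]) ^ r ∣ coeff t w.1 := by
  constructor
  · rintro ⟨g, rfl⟩ t
    rw [← cst_p, ← map_pow, coeff_cst_mul]
    exact dvd_mul_right _ _
  · intro h
    obtain ⟨g, hg⟩ := exists_eq_pow_mul p_cancel r w h
    rw [map_pow, cst_p] at hg
    exact ⟨g, hg⟩

theorem W0_dvd_iff (w : W0 p) (r : ℕ) :
    (p : W0 p) ^ r ∣ w ↔ ‖iota p w‖ ≤ (p : ℝ) ^ (-(r : ℤ)) := by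
  rw [W0_dvd_iff_coeff, norm_eq]
  constructor
  · intro h
    refine gauss_le fun t => ?_
    rw [coeff_iota]
    exact (dvd_iff_norm p _ r).1 (h t)
  · intro h t
    rw [dvd_iff_norm]
    have h1 := le_gauss (iota p w) t
    rw [coeff_iota] at h1
    exact h1.trans h

theorem exists_iota (w : Tate ℚ_[p] 2) (h : ‖w‖ ≤ 1) : ∃ w0 : W0 p, iota p w0 = w := by
  have h1 : ∀ t, ‖coeff t w.1‖ ≤ 1 := fun t => (le_gauss w t).trans h
  have hmem : (fun t => (⟨coeff t w.1, h1 t⟩ : ℤ_[p]) : MvPowerSeries (Fin 2) ℤ_[p]) ∈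
      res (Fin 2) ℤ_[p] (p : ℤ_[p]) := by
    refine (eventually_dvd_iff p cofinite _).2 ?_
    exact w.2
  refine ⟨⟨_, hmem⟩, ?_⟩
  apply Subtype.ext
  ext t
  rw [coeff_iota]
  rfl

theorem norm_coe_pow (r : ℕ) (w : Tate ℚ_[p] 2) :
    ‖(p : Tate ℚ_[p] 2) ^ r * w‖ ≤ (p : ℝ) ^ (-(r : ℤ)) * ‖w‖ := by
  refine gauss_le fun t => ?_
  have h1 : ((p : Tate ℚ_[p] 2) ^ r * w).1 = C ((p : ℚ_[p]) ^ r) * w.1 := by
    rw [map_pow, map_natCast]
    rfl
  rw [h1, MvPowerSeries.coeff_C_mul, norm_mul, norm_pow, Padic.norm_p, inv_pow, zpow_neg,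
    zpow_natCast]
  exact mul_le_mul_of_nonneg_left (le_gauss w t) (by positivity)

theorem exists_pow_mul (w : Tate ℚ_[p] 2) (r : ℕ) (h : ‖w‖ ≤ (p : ℝ) ^ r) :
    ∃ w0 : W0 p, iota p w0 = (p : Tate ℚ_[p] 2) ^ r * w := by
  refine exists_iota _ ((norm_coe_pow r w).trans ?_)
  have hp : (0 : ℝ) < p := by exact_mod_cast (Fact.out : p.Prime).pos
  rw [zpow_neg, zpow_natCast]
  calc ((p : ℝ) ^ r)⁻¹ * ‖w‖ ≤ ((p : ℝ) ^ r)⁻¹ * (p : ℝ) ^ r :=
        mul_le_mul_of_nonneg_left h (by positivity)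
    _ = 1 := inv_mul_cancel₀ (by positivity)

variable (p)

/-- The variable `X`. -/
noncomputable def x0 : W0 p := ⟨monomial (Finsupp.single 0 1) 1, monomial_mem _ _⟩

/-- The variable `Y`. -/
noncomputable def y0 : W0 p := ⟨monomial (Finsupp.single 1 1) 1, monomial_mem _ _⟩

/-- The equation of the curve. -/
noncomputable def f0 : W0 p := y0 p ^ 2 - x0 p ^ 3 - 4 * (p : W0 p)

theorem toZMod_p : (PadicInt.toZMod : ℤ_[p] →+* ZMod p) (p : ℤ_[p]) = 0 := by simp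

/-- Reduction modulo `p`. -/
noncomputable def red0 : W0 p →+* MvPolynomial (Fin 2) (ZMod p) :=
  red (PadicInt.toZMod : ℤ_[p] →+* ZMod p) (toZMod_p p)

/-- Reduction modulo `p`, followed by the normalisation of the cusp. -/
noncomputable def rho0 : W0 p →+* Polynomial (ZMod p) := (psi (ZMod p)).comp (red0 p)

variable {p}

theorem red0_p : red0 p (p : W0 p) = 0 := by simp [red0]

theorem red0_x : red0 p (x0 p) = MvPolynomial.X 0 := by
  rw [red0, x0, red_monomial, map_one]; rfl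

theorem red0_y : red0 p (y0 p) = MvPolynomial.X 1 := by
  rw [red0, y0, red_monomial, map_one]; rfl

theorem red0_f : red0 p (f0 p) = MvPolynomial.X 1 ^ 2 - MvPolynomial.X 0 ^ 3 := by
  rw [f0, map_sub, map_sub, map_pow, map_pow, map_mul, red0_x, red0_y, red0_p, mul_zero, sub_zero]

theorem rho0_p : rho0 p (p : W0 p) = 0 := by
  rw [rho0, RingHom.comp_apply, red0_p, map_zero]

theorem rho0_x : rho0 p (x0 p) = Polynomial.X ^ 2 := by
  rw [rho0, RingHom.comp_apply, red0_x, psi_X0]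

theorem rho0_y : rho0 p (y0 p) = Polynomial.X ^ 3 := by
  rw [rho0, RingHom.comp_apply, red0_y, psi_X1]

theorem rho0_f : rho0 p (f0 p) = 0 := by
  rw [rho0, RingHom.comp_apply, red0_f, map_sub, map_pow, map_pow, psi_X0, psi_X1]
  ring

theorem toZMod_eq_zero (x : ℤ_[p]) (h : (PadicInt.toZMod : ℤ_[p] →+* ZMod p) x = 0) :
    (p : ℤ_[p]) ∣ x := by
  have h1 : x ∈ RingHom.ker (PadicInt.toZMod : ℤ_[p] →+* ZMod p) := h
  rw [PadicInt.ker_toZMod, PadicInt.maximalIdeal_eq_span_p, Ideal.mem_span_singleton] at h1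
  exact h1

theorem ker_red0 (w : W0 p) (h : red0 p w = 0) : (p : W0 p) ∣ w := by
  rw [← pow_one (p : W0 p), W0_dvd_iff_coeff]
  intro t
  rw [pow_one]
  refine toZMod_eq_zero _ ?_
  rw [← coeff_red (PadicInt.toZMod : ℤ_[p] →+* ZMod p) (toZMod_p p) w t]
  change MvPolynomial.coeff t (red0 p w) = 0
  rw [h, MvPolynomial.coeff_zero]

theorem red0_surjective : Function.Surjective (red0 p) :=
  red_surjective _ _ (ZMod.ringHom_surjective _)

theorem ker_rho0 (w : W0 p) (h : rho0 p w = 0) : ∃ a b, w = (p : W0 p) * a + f0 p * b := by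
  rw [rho0, RingHom.comp_apply] at h
  obtain ⟨Q, hQ⟩ := ker_psi _ h
  obtain ⟨b, rfl⟩ := red0_surjective Q
  have h1 : red0 p (w - f0 p * b) = 0 := by
    rw [map_sub, map_mul, red0_f, hQ, sub_self]
  obtain ⟨a, ha⟩ := ker_red0 _ h1
  exact ⟨a, b, by rw [← ha]; ring⟩

theorem W0_gauss (h : W0 p) (hd : (p : W0 p) ∣ f0 p * h) : (p : W0 p) ∣ h := by
  obtain ⟨c, hc⟩ := hd
  have h1 := congrArg (red0 p) hc
  rw [map_mul, map_mul, red0_f, red0_p, zero_mul] at h1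
  rcases mul_eq_zero.1 h1 with h2 | h2
  · exact absurd h2 cusp_ne_zero
  · exact ker_red0 _ h2

/-- The contraction of the ideal `(f)` of `ℚ_p⟨X, Y⟩` to `ℤ_p⟨X, Y⟩`. -/
theorem exists_of_iota_mem (g : W0 p) (hg : iota p g ∈ Ideal.span {iota p (f0 p)}) :
    ∃ h, g = f0 p * h := by
  obtain ⟨w, hw⟩ := Ideal.mem_span_singleton.1 hg
  obtain ⟨r, hr⟩ : ∃ r : ℕ, ‖w‖ ≤ (p : ℝ) ^ r := by
    have hp : (1 : ℝ) < p := by exact_mod_cast (Fact.out : p.Prime).one_lt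
    obtain ⟨r, hr⟩ := pow_unbounded_of_one_lt ‖w‖ hp
    exact ⟨r, hr.le⟩
  obtain ⟨w', hw'⟩ := exists_pow_mul w r hr
  have h1 : (p : W0 p) ^ r * g = f0 p * w' := by
    apply iota_injective
    rw [map_mul, map_mul, map_pow, map_natCast, hw', hw]
    ring
  obtain ⟨h, rfl⟩ := pow_dvd_of W0_cancel W0_gauss r w' (Dvd.intro _ h1)
  refine ⟨h, ?_⟩
  have h2 : (p : W0 p) ^ r * (g - f0 p * h) = 0 := by linear_combination h1
  exact sub_eq_zero.1 (pow_cancel W0_cancel r _ h2)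

end Int

end Pool.Agent.H872.BQ
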