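import Mathlib

/-!
# Extended modules of rank one
-/

set_option autoImplicit false

open TensorProduct

namespace Pool.Agent.H872.BQ

section Rank

variable {A B : Type} [CommRing A] [CommRing B] [Algebra A B]

/-- The image of a `2 × 2` matrix. -/
noncomputable def img (E : Matrix (Fin 2) (Fin 2) B) : Submodule B (Fin 2 → B) :=
  LinearMap.range E.mulVecLin

instance (E : Matrix (Fin 2) (Fin 2) B) : Module.Finite B (img E) := by
  unfold img; infer_instance

/-- The image of an idempotent matrix is projective. -/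
theorem img_projective (E : Matrix (Fin 2) (Fin 2) B) (hE : E * E = E) :
    Module.Projective B (img E) := by
  refine Module.Projective.of_split (img E).subtype E.mulVecLin.rangeRestrict ?_
  apply LinearMap.ext
  rintro ⟨m, w, rfl⟩
  apply Subtype.ext
  change E.mulVec (E.mulVec w) = E.mulVec w
  rw [Matrix.mulVec_mulVec, hE]

theorem minors (E : Matrix (Fin 2) (Fin 2) B) (hdet : E 0 0 * E 1 1 = E 0 1 * E 1 0)
    {m m0 : Fin 2 → B} (hm : m ∈ img E) (hm0 : m0 ∈ img E) (i j : Fin 2) :
    m i * m0 j = m j * m0 i := by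
  obtain ⟨w, rfl⟩ := hm
  obtain ⟨w0, rfl⟩ := hm0
  simp only [Matrix.mulVecLin_apply, Matrix.mulVec, dotProduct, Fin.sum_univ_two]
  fin_cases i <;> fin_cases j <;> simp only [Fin.zero_eta, Fin.mk_one, Fin.isValue] <;>
    first
    | rfl
    | linear_combination (w 0 * w0 1 - w 1 * w0 0) * hdet
    | linear_combination (w 1 * w0 0 - w 0 * w0 1) * hdet

/-- If the image of `E`, a matrix of determinant zero, is extended, then `E` is the
product of a column and a row. -/
theorem exists_factor (E : Matrix (Fin 2) (Fin 2) B)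
    (hdet : E 0 0 * E 1 1 = E 0 1 * E 1 0) (ε : B →ₐ[A] A) (hε : ε (E 1 0 + E 1 1) = 1)
    (N : Type) [AddCommGroup N] [Module A N] (φ : img E ≃ₗ[B] B ⊗[A] N) :
    ∃ x y : Fin 2 → B, ∀ i j, E i j = x i * y j := by
  classical
  let m0 : img E := ⟨E.mulVecLin (fun _ => 1), LinearMap.mem_range_self _ _⟩
  have hm0 : ε (m0.1 1) = 1 := by
    have : m0.1 1 = E 1 0 + E 1 1 := by
      change E.mulVec (fun _ => 1) 1 = _
      simp [Matrix.mulVec, dotProduct, Fin.sum_univ_two]
    rw [this, hε]
  have hkey : ∀ m : img E, m.1 1 • m0 = m0.1 1 • m := by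
    intro m
    apply Subtype.ext
    funext i
    change m.1 1 * m0.1 i = m0.1 1 * m.1 i
    rw [mul_comm (m0.1 1), minors E hdet m.2 m0.2 i 1]
  let π : B ⊗[A] N →ₗ[A] N :=
    (TensorProduct.lid A N).toLinearMap ∘ₗ LinearMap.rTensor N ε.toLinearMap
  have hπ : ∀ (b : B) (n : N), π (b ⊗ₜ n) = ε b • n := by
    intro b n
    simp [π]
  have hπs : ∀ (b : B) (z : B ⊗[A] N), π (b • z) = ε b • π z := by
    intro b z
    induction z with
    | zero => simp
    | tmul b' n =>
      rw [TensorProduct.smul_tmul', hπ, hπ, smul_eq_mul, map_mul, mul_smul]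
    | add z1 z2 h1 h2 => rw [smul_add, map_add, map_add, h1, h2, smul_add]
  -- the maps between `N` and `A`
  let g : N →ₗ[A] A :=
    { toFun := fun n => ε ((φ.symm (1 ⊗ₜ n)).1 1)
      map_add' := fun n n' => by
        rw [TensorProduct.tmul_add, map_add]
        change ε ((φ.symm (1 ⊗ₜ n)).1 1 + (φ.symm (1 ⊗ₜ n')).1 1) = _
        rw [map_add]
      map_smul' := fun a n => by
        have h1 : (1 : B) ⊗ₜ[A] (a • n) = algebraMap A B a • ((1 : B) ⊗ₜ[A] n) := by
          rw [TensorProduct.tmul_smul, algebraMap_smul]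
        rw [h1, map_smul]
        change ε (algebraMap A B a * (φ.symm (1 ⊗ₜ n)).1 1) = _
        rw [map_mul, AlgHom.commutes]
        rfl }
  let h : A →ₗ[A] N := LinearMap.toSpanSingleton A N (π (φ m0))
  have hg : ∀ n, g n = ε ((φ.symm (1 ⊗ₜ n)).1 1) := fun n => rfl
  have hh : ∀ a, h a = a • π (φ m0) := fun a => rfl
  have hgπ : ∀ z : B ⊗[A] N, g (π z) = ε ((φ.symm z).1 1) := by
    intro z
    induction z with
    | zero => simp
    | tmul b n =>
      rw [hπ, map_smul, hg]
      have h1 : (b ⊗ₜ[A] n : B ⊗[A] N) = b • ((1 : B) ⊗ₜ[A] n) := by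
        rw [TensorProduct.smul_tmul', smul_eq_mul, mul_one]
      rw [h1, map_smul]
      change _ = ε (b * (φ.symm (1 ⊗ₜ n)).1 1)
      rw [map_mul]
      rfl
    | add z1 z2 h1 h2 =>
      rw [map_add, map_add, h1, h2, map_add]
      change _ = ε ((φ.symm z1).1 1 + (φ.symm z2).1 1)
      rw [map_add]
  have hgh : ∀ a, g (h a) = a := by
    intro a
    rw [hh, map_smul, hgπ, LinearEquiv.symm_apply_apply, hm0, smul_eq_mul, mul_one]
  have hhg : ∀ n, h (g n) = n := by
    intro n
    rw [hh, hg, ← hπs, ← map_smul, hkey, map_smul, hπs, hm0, one_smul,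
      LinearEquiv.apply_symm_apply, hπ, map_one, one_smul]
  let e1 : N ≃ₗ[A] A := LinearEquiv.ofLinearMap g h (LinearMap.ext hgh) (LinearMap.ext hhg)
  let ψ : img E ≃ₗ[B] B :=
    φ.trans ((TensorProduct.AlgebraTensorModule.congr (LinearEquiv.refl B B) e1).trans
      (TensorProduct.AlgebraTensorModule.rid A B B))
  let c : Fin 2 → img E := fun j => ⟨E.mulVecLin (Pi.single j 1), LinearMap.mem_range_self _ _⟩
  refine ⟨(ψ.symm 1).1, fun j => ψ (c j), fun i j => ?_⟩
  have h1 : c j = ψ (c j) • ψ.symm 1 := by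
    rw [← map_smul, smul_eq_mul, mul_one, LinearEquiv.symm_apply_apply]
  have h2 : (c j).1 i = E i j := by
    change E.mulVec (Pi.single j 1) i = _
    simp
  have h3 : (c j).1 i = ψ (c j) * (ψ.symm 1).1 i := congrArg (fun m : img E => m.1 i) h1
  rw [← h2, h3, mul_comm]

end Rank

end Pool.Agent.H872.BQ
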