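import Pool.Agent.H872.BQ.Ang

/-!
# The curve `Y² = X³ + 4p` is smooth
-/

set_option autoImplicit false

open Filter Topology

namespace Pool.Agent.H872.BQ

section Smooth

variable (p : ℕ) [Fact p.Prime]

theorem iota_x : (iota p (x0 p)).1 = MvPowerSeries.X 0 := by
  classical
  ext t
  rw [coeff_iota, MvPowerSeries.coeff_X]
  change ((MvPowerSeries.coeff t (MvPowerSeries.monomial (Finsupp.single 0 1) 1) : ℤ_[p]) : ℚ_[p]) = _
  rw [MvPowerSeries.coeff_monomial]
  split_ifs <;> simp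

theorem iota_y : (iota p (y0 p)).1 = MvPowerSeries.X 1 := by
  classical
  ext t
  rw [coeff_iota, MvPowerSeries.coeff_X]
  change ((MvPowerSeries.coeff t (MvPowerSeries.monomial (Finsupp.single 1 1) 1) : ℤ_[p]) : ℚ_[p]) = _
  rw [MvPowerSeries.coeff_monomial]
  split_ifs <;> simp

theorem iota_f : (iota p (f0 p)).1 =
    MvPowerSeries.X 1 ^ 2 - MvPowerSeries.X 0 ^ 3 - MvPowerSeries.C (4 * (p : ℚ_[p])) := by
  have h : iota p (f0 p) = iota p (y0 p) ^ 2 - iota p (x0 p) ^ 3 - 4 * (p : Tate ℚ_[p] 2) := by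
    rw [f0, map_sub, map_sub, map_pow, map_pow, map_mul, map_natCast, map_ofNat]
  have h1 : (4 * (p : Tate ℚ_[p] 2)).1 = MvPowerSeries.C (4 * (p : ℚ_[p])) := by
    rw [map_mul, map_natCast, map_ofNat]
    rfl
  rw [h, ← iota_x, ← iota_y, ← h1]
  rfl

theorem coeff_pd (i : Fin 2) (f : Tate ℚ_[p] 2) (t : Fin 2 →₀ ℕ) :
    MvPowerSeries.coeff t (pd i f).1 =
      ((t i : ℚ_[p]) + 1) * MvPowerSeries.coeff (t + Finsupp.single i 1) f.1 := rfl

theorem pd_0 : pd 0 (iota p (f0 p)) = -(3 * iota p (x0 p) ^ 2) := by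
  classical
  apply Subtype.ext
  ext t
  have h : (-(3 * iota p (x0 p) ^ 2) : Tate ℚ_[p] 2).1 =
      MvPowerSeries.C (-3 : ℚ_[p]) * MvPowerSeries.X 0 ^ 2 := by
    rw [← iota_x, map_neg, map_ofNat, neg_mul]
    rfl
  rw [coeff_pd, iota_f, h, map_sub, map_sub, MvPowerSeries.coeff_X_pow, MvPowerSeries.coeff_X_pow,
    MvPowerSeries.coeff_C, MvPowerSeries.coeff_C_mul, MvPowerSeries.coeff_X_pow]
  have h1 : t + Finsupp.single 0 1 ≠ Finsupp.single 1 2 := by
    intro h1
    have := DFunLike.congr_fun h1 0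
    simp at this
  have h2 : t + Finsupp.single 0 1 ≠ 0 := by
    intro h1
    have := DFunLike.congr_fun h1 0
    simp at this
  have h3 : t + Finsupp.single 0 1 = Finsupp.single 0 3 ↔ t = Finsupp.single 0 2 := by
    have : (Finsupp.single 0 3 : Fin 2 →₀ ℕ) = Finsupp.single 0 2 + Finsupp.single 0 1 := by
      rw [← Finsupp.single_add]
    rw [this, add_left_inj]
  rw [if_neg h1, if_neg h2]
  by_cases h4 : t = Finsupp.single 0 2
  · rw [if_pos (h3.2 h4), if_pos h4, h4, Finsupp.single_eq_same]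
    push_cast
    ring
  · rw [if_neg (fun h5 => h4 (h3.1 h5)), if_neg h4]
    ring

theorem pd_1 : pd 1 (iota p (f0 p)) = 2 * iota p (y0 p) := by
  classical
  apply Subtype.ext
  ext t
  have h : (2 * iota p (y0 p) : Tate ℚ_[p] 2).1 =
      MvPowerSeries.C (2 : ℚ_[p]) * MvPowerSeries.X 1 ^ 1 := by
    rw [← iota_y, map_ofNat, pow_one]
    rfl
  rw [coeff_pd, iota_f, h, map_sub, map_sub, MvPowerSeries.coeff_X_pow, MvPowerSeries.coeff_X_pow,
    MvPowerSeries.coeff_C, MvPowerSeries.coeff_C_mul, MvPowerSeries.coeff_X_pow]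
  have h1 : t + Finsupp.single 1 1 ≠ Finsupp.single 0 3 := by
    intro h1
    have := DFunLike.congr_fun h1 1
    simp at this
  have h2 : t + Finsupp.single 1 1 ≠ 0 := by
    intro h1
    have := DFunLike.congr_fun h1 1
    simp at this
  have h3 : t + Finsupp.single 1 1 = Finsupp.single 1 2 ↔ t = Finsupp.single 1 1 := by
    have : (Finsupp.single 1 2 : Fin 2 →₀ ℕ) = Finsupp.single 1 1 + Finsupp.single 1 1 := by
      rw [← Finsupp.single_add]
    rw [this, add_left_inj]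
  rw [if_neg h1, if_neg h2]
  by_cases h4 : t = Finsupp.single 1 1
  · rw [if_pos (h3.2 h4), if_pos h4, h4, Finsupp.single_eq_same]
    push_cast
    ring
  · rw [if_neg (fun h5 => h4 (h3.1 h5)), if_neg h4]
    ring

theorem isUnit_natCast (n : ℕ) (hn : n ≠ 0) : IsUnit (n : Tate ℚ_[p] 2) := by
  have h : IsUnit (n : ℚ_[p]) := isUnit_iff_ne_zero.2 (by exact_mod_cast hn)
  have h1 := h.map (algebraMap ℚ_[p] (Tate ℚ_[p] 2))
  rwa [map_natCast] at h1

theorem mem_of_natCast_mul_mem {m : Ideal (Tate ℚ_[p] 2)} (n : ℕ) (hn : n ≠ 0)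
    (w : Tate ℚ_[p] 2) (h : (n : Tate ℚ_[p] 2) * w ∈ m) : w ∈ m := by
  obtain ⟨u, hu⟩ := isUnit_natCast p n hn
  have h1 := m.mul_mem_left (↑u⁻¹ : Tate ℚ_[p] 2) h
  rwa [← hu, Units.inv_mul_cancel_left] at h1

theorem isSmooth_II : IsSmooth (II p) := by
  intro m hm hI
  have hf : iota p (f0 p) ∈ II p := Ideal.mem_span_singleton_self _
  have hor : pd 0 (iota p (f0 p)) ∉ m ∨ pd 1 (iota p (f0 p)) ∉ m := by
    by_contra hcon
    push Not at hcon
    obtain ⟨h0, h1⟩ := hcon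
    rw [pd_0] at h0
    rw [pd_1] at h1
    have hx : iota p (x0 p) ∈ m := by
      have h2 : ((3 : ℕ) : Tate ℚ_[p] 2) * iota p (x0 p) ^ 2 ∈ m := by
        have := m.neg_mem h0
        rw [neg_neg] at this
        exact_mod_cast this
      exact hm.isPrime.mem_of_pow_mem _ (mem_of_natCast_mul_mem p 3 (by norm_num) _ h2)
    have hy : iota p (y0 p) ∈ m := by
      have h2 : ((2 : ℕ) : Tate ℚ_[p] 2) * iota p (y0 p) ∈ m := by exact_mod_cast h1
      exact mem_of_natCast_mul_mem p 2 (by norm_num) _ h2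
    have h3 : ((4 * p : ℕ) : Tate ℚ_[p] 2) ∈ m := by
      have h4 : ((4 * p : ℕ) : Tate ℚ_[p] 2) =
          iota p (y0 p) ^ 2 - iota p (x0 p) ^ 3 - iota p (f0 p) := by
        rw [f0, map_sub, map_sub, map_pow, map_pow, map_mul, map_natCast, map_ofNat]
        push_cast
        ring
      rw [h4]
      exact m.sub_mem (m.sub_mem (m.pow_mem_of_mem hy 2 (by norm_num))
        (m.pow_mem_of_mem hx 3 (by norm_num))) (hI hf)
    exact hm.ne_top (m.eq_top_of_isUnit_mem h3 (isUnit_natCast p _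
      (mul_ne_zero (by norm_num) (Fact.out : p.Prime).ne_zero)))
  have hspan : ∀ x ∈ II p, ∃ s ∉ m, s * x ∈
      Ideal.span (Set.range fun _ : Fin 1 => iota p (f0 p)) := by
    intro x hx
    refine ⟨1, fun h1 => hm.ne_top ((Ideal.eq_top_iff_one m).2 h1), ?_⟩
    rw [one_mul, Set.range_const]
    exact hx
  rcases hor with h | h
  · refine ⟨1, fun _ => iota p (f0 p), fun _ => 0, fun _ => hf, hspan, ?_⟩
    rw [Matrix.det_fin_one]
    exact h
  · refine ⟨1, fun _ => iota p (f0 p), fun _ => 1, fun _ => hf, hspan, ?_⟩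
    rw [Matrix.det_fin_one]
    exact h

end Smooth

end Pool.Agent.H872.BQ
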