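import Pool.Agent.H872.BQ.Sqrt
import Pool.Agent.H872.BQ.Rank
import Pool.Agent.H872.BQ.Smooth

/-!
# A projective module over `A⟨T⟩` that is not extended from `A`
-/

set_option autoImplicit false

open Filter Topology TensorProduct

namespace Pool.Agent.H872.BQ

section Abstract

variable {B : Type} [CommRing B]

/-- The matrix. -/
noncomputable def mat (c V a b : B) : Matrix (Fin 2) (Fin 2) B :=
  Matrix.of ![![c * (V + a), c * (1 + b + b ^ 2)], ![c * (1 - b), c * (V - a)]]

theorem mat_00 (c V a b : B) : mat c V a b 0 0 = c * (V + a) := rfl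
theorem mat_01 (c V a b : B) : mat c V a b 0 1 = c * (1 + b + b ^ 2) := rfl
theorem mat_10 (c V a b : B) : mat c V a b 1 0 = c * (1 - b) := rfl
theorem mat_11 (c V a b : B) : mat c V a b 1 1 = c * (V - a) := rfl

theorem mat_det {c V a b q : B} (h1 : V ^ 2 = 1 + q) (h2 : a ^ 2 = b ^ 3 + q) :
    mat c V a b 0 0 * mat c V a b 1 1 = mat c V a b 0 1 * mat c V a b 1 0 := by
  rw [mat_00, mat_01, mat_10, mat_11]
  linear_combination c ^ 2 * (h1 - h2)

theorem mat_sq {c V a b q : B} (h1 : V ^ 2 = 1 + q) (h2 : a ^ 2 = b ^ 3 + q)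
    (h3 : 2 * c * V = 1) : mat c V a b * mat c V a b = mat c V a b := by
  ext i j
  rw [Matrix.mul_apply, Fin.sum_univ_two]
  fin_cases i <;> fin_cases j
  · change mat c V a b 0 0 * mat c V a b 0 0 + mat c V a b 0 1 * mat c V a b 1 0 = mat c V a b 0 0
    rw [mat_00, mat_01, mat_10]
    linear_combination (c * (V + a)) * h3 - c ^ 2 * (h1 - h2)
  · change mat c V a b 0 0 * mat c V a b 0 1 + mat c V a b 0 1 * mat c V a b 1 1 = mat c V a b 0 1
    rw [mat_00, mat_01, mat_11]
    linear_combination (c * (1 + b + b ^ 2)) * h3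
  · change mat c V a b 1 0 * mat c V a b 0 0 + mat c V a b 1 1 * mat c V a b 1 0 = mat c V a b 1 0
    rw [mat_00, mat_10, mat_11]
    linear_combination (c * (1 - b)) * h3
  · change mat c V a b 1 0 * mat c V a b 0 1 + mat c V a b 1 1 * mat c V a b 1 1 = mat c V a b 1 1
    rw [mat_01, mat_10, mat_11]
    linear_combination (c * (V - a)) * h3 - c ^ 2 * (h1 - h2)

/-- The abstract form of the counterexample. -/
theorem abstract_not_extended {A : Type} [CommRing A] [Algebra A B] (ε : B →ₐ[A] A)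
    {c V a b q : B} (h1 : V ^ 2 = 1 + q) (h2 : a ^ 2 = b ^ 3 + q) (h3 : 2 * c * V = 1)
    (ha : ε a = 0) (hb : ε b = 0) (hV : ε V = 1)
    (hno : ∀ x y : Fin 2 → B, x 0 * y 0 = V + a → x 0 * y 1 = 1 + b + b ^ 2 →
      x 1 * y 0 = 1 - b → x 1 * y 1 = V - a → False) :
    ∃ (M : Type) (_ : AddCommGroup M) (_ : Module B M), Module.Finite B M ∧
      Module.Projective B M ∧ ∀ (N : Type) [AddCommGroup N] [Module A N],
        IsEmpty (M ≃ₗ[B] B ⊗[A] N) := by
  refine ⟨img (mat c V a b), inferInstance, inferInstance, inferInstance,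
    img_projective _ (mat_sq h1 h2 h3), fun N _ _ => ⟨fun φ => ?_⟩⟩
  have hsum : ε (mat c V a b 1 0 + mat c V a b 1 1) = 1 := by
    have h := congrArg ε h3
    rw [map_mul, map_mul, hV, map_one, map_ofNat] at h
    rw [mat_10, mat_11, map_add, map_mul, map_mul, map_sub, map_sub, hV, ha, hb, map_one]
    linear_combination h
  obtain ⟨x, y, hxy⟩ := exists_factor (mat c V a b) (mat_det h1 h2) ε hsum N φ
  have h00 := hxy 0 0
  have h01 := hxy 0 1
  have h10 := hxy 1 0
  have h11 := hxy 1 1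
  rw [mat_00] at h00
  rw [mat_01] at h01
  rw [mat_10] at h10
  rw [mat_11] at h11
  refine hno x (fun j => 2 * V * y j) ?_ ?_ ?_ ?_
  · linear_combination (V + a) * h3 - 2 * V * h00
  · linear_combination (1 + b + b ^ 2) * h3 - 2 * V * h01
  · linear_combination (1 - b) * h3 - 2 * V * h10
  · linear_combination (V - a) * h3 - 2 * V * h11

end Abstract

section Main

variable (p : ℕ) [Fact p.Prime]

/-- Evaluation at `T = 0`. -/
noncomputable def ev0 (I : Ideal (Tate ℚ_[p] 2)) : AffT I →ₐ[Aff I] Aff I :=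
  { (PowerSeries.constantCoeff (R := Aff I)).comp (angle I).val.toRingHom with
    commutes' := fun a => PowerSeries.constantCoeff_C a }

/-- `V = sqrt (1 + 4 p T ^ 6)`. -/
noncomputable def VB : AffT (II p) := Phi p (vV p)

/-- `T ^ 3 Y`. -/
noncomputable def aB : AffT (II p) := Phi p (TV p ^ 3 * cst Unit (p : W0 p) (y0 p))

/-- `T ^ 2 X`. -/
noncomputable def bB : AffT (II p) := Phi p (TV p ^ 2 * cst Unit (p : W0 p) (x0 p))

/-- `4 p T ^ 6`. -/
noncomputable def qB : AffT (II p) := Phi p (4 * (p : V0 p) * TV p ^ 6)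

theorem exists_half : ∃ h : AffT (II p), 2 * h = 1 := by
  have h : IsUnit (2 : ℚ_[p]) := isUnit_iff_ne_zero.2 two_ne_zero
  have h1 := h.map (algebraMap ℚ_[p] (Tate ℚ_[p] 2))
  have h2 := h1.map (toAff (II p))
  have h3 := h2.map (algebraMap (Aff (II p)) (AffT (II p)))
  rw [map_ofNat, map_ofNat, map_ofNat] at h3
  obtain ⟨u, hu⟩ := h3
  exact ⟨(↑u⁻¹ : AffT (II p)), by rw [← hu, Units.mul_inv]⟩

/-- `1 / 2`. -/
noncomputable def half : AffT (II p) := (exists_half p).choose

theorem two_half : 2 * half p = 1 := (exists_half p).choose_spec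

/-- `1 / (2 V)`. -/
noncomputable def cB : AffT (II p) := half p * Phi p (uV p)

theorem VB_sq : VB p ^ 2 = 1 + qB p := by
  rw [VB, qB, ← map_pow, vV_sq, map_add, map_one]

theorem aB_sq : aB p ^ 2 = bB p ^ 3 + qB p := by
  have h : Phi p (fV p) = 0 := by
    apply Subtype.ext
    ext n
    rw [coeff_Phi]
    change qA p (cf n (fV p)) = 0
    have h1 : cf n (fV p) = if n = 0 then f0 p else 0 := by
      classical
      change MvPowerSeries.coeff (Finsupp.single () n) (MvPowerSeries.C (f0 p)) = _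
      rw [MvPowerSeries.coeff_C]
      by_cases hn : n = 0
      · rw [if_pos hn, hn, Finsupp.single_zero, if_pos rfl]
      · rw [if_neg hn, if_neg]
        intro h2
        exact hn (Finsupp.single_eq_zero.1 h2)
    rw [h1]
    split_ifs
    · exact Ideal.Quotient.eq_zero_iff_mem.2 (Ideal.mem_span_singleton_self _)
    · rw [map_zero]
  have h2 : (TV p ^ 3 * cst Unit (p : W0 p) (y0 p)) ^ 2 =
      (TV p ^ 2 * cst Unit (p : W0 p) (x0 p)) ^ 3 + 4 * (p : V0 p) * TV p ^ 6 +
        TV p ^ 6 * fV p := by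
    have h3 : fV p = cst Unit (p : W0 p) (y0 p) ^ 2 - cst Unit (p : W0 p) (x0 p) ^ 3 -
        4 * (p : V0 p) := by
      rw [fV, f0, map_sub, map_sub, map_pow, map_pow, map_mul, map_natCast, map_ofNat]
    rw [h3]
    ring
  rw [aB, bB, qB, ← map_pow, h2, map_add, map_add, map_mul (Phi p) (TV p ^ 6), h, mul_zero,
    add_zero, map_pow (Phi p)]

theorem cB_VB : 2 * cB p * VB p = 1 := by
  have h1 : Phi p (uV p) * VB p = 1 := by rw [VB, ← map_mul, uV_vV, map_one]
  have h2 := two_half p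
  rw [cB]
  linear_combination Phi p (uV p) * VB p * h2 + h1

theorem ev0_Phi (F : V0 p) : ev0 p (II p) (Phi p F) = qA p (cf 0 F) :=
  (PowerSeries.coeff_zero_eq_constantCoeff_apply (Phi p F).1).symm.trans (coeff_Phi F 0)

theorem ev0_T : ev0 p (II p) (Phi p (TV p)) = 0 := by
  rw [ev0_Phi]
  have h : cf 0 (TV p) = 0 := by
    classical
    change MvPowerSeries.coeff (Finsupp.single () 0) (MvPowerSeries.monomial _ 1) = _
    rw [MvPowerSeries.coeff_monomial, if_neg]
    intro h
    have := DFunLike.congr_fun h ()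
    simp at this
  rw [h, map_zero]

theorem ev0_aB : ev0 p (II p) (aB p) = 0 := by
  rw [aB, map_mul, map_pow, map_mul, map_pow, ev0_T]
  ring

theorem ev0_bB : ev0 p (II p) (bB p) = 0 := by
  rw [bB, map_mul, map_pow, map_mul, map_pow, ev0_T]
  ring

theorem ev0_VB : ev0 p (II p) (VB p) = 1 := by
  have hv : vV p = 1 + TV p * (2 * (p : V0 p) * TV p ^ 5 * cV p) := by
    rw [vV]
    ring
  have h : VB p = 1 + Phi p (TV p) * Phi p (2 * (p : V0 p) * TV p ^ 5 * cV p) := by
    rw [VB, hv, map_add, map_one, map_mul]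
  rw [h, map_add, map_one, map_mul, ev0_T, zero_mul, add_zero]

theorem no_factorisation' (x y : Fin 2 → AffT (II p)) (h00 : x 0 * y 0 = VB p + aB p)
    (h01 : x 0 * y 1 = 1 + bB p + bB p ^ 2) (h10 : x 1 * y 0 = 1 - bB p)
    (h11 : x 1 * y 1 = VB p - aB p) : False := by
  refine no_factorisation (vV p) (ev1_vV p) x y ?_ ?_ ?_ ?_
  · rw [h00, map_add]; rfl
  · rw [h01, map_add, map_add, map_pow, map_one]; rfl
  · rw [h10, map_sub, map_one]; rfl
  · rw [h11, map_sub]; rfl

/-- There is a finitely generated projective module over `A⟨T⟩` that is not extended from `A`. -/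
theorem not_extended : ∃ (M : Type) (_ : AddCommGroup M) (_ : Module (AffT (II p)) M),
    Module.Finite (AffT (II p)) M ∧ Module.Projective (AffT (II p)) M ∧
      ∀ (N : Type) [AddCommGroup N] [Module (Aff (II p)) N],
        IsEmpty (M ≃ₗ[AffT (II p)] (AffT (II p)) ⊗[Aff (II p)] N) :=
  abstract_not_extended (ev0 p (II p)) (VB_sq p) (aB_sq p) (cB_VB p) (ev0_aB p) (ev0_bB p)
    (ev0_VB p) (no_factorisation' p)

theorem II_eq : II p = curve (4 * (p : ℚ_[p])) := by
  rw [II, curve]
  congr 2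
  apply Subtype.ext
  rw [iota_f]
  rfl

end Main

end Pool.Agent.H872.BQ
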