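import Pool.Agent.H872.BQ.Ang

/-!
# The square root of `1 + 4 p T⁶`
-/

set_option autoImplicit false

open Filter Topology

namespace Pool.Agent.H872.BQ

section Sqrt

theorem six_ne : (6 : ℕ) ≠ 0 := by norm_num

/-- Substitution of `a T ^ 6`. -/
noncomputable def sub6 (a : ℤ) : PowerSeries ℤ →+* PowerSeries ℤ :=
  (PowerSeries.expand (R := ℤ) 6 six_ne).toRingHom.comp (PowerSeries.rescale a)

theorem sub6_apply (a : ℤ) (F : PowerSeries ℤ) :
    sub6 a F = PowerSeries.expand 6 six_ne (PowerSeries.rescale a F) := rfl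

theorem sub6_X (a : ℤ) : sub6 a PowerSeries.X = PowerSeries.C a * PowerSeries.X ^ 6 := by
  rw [sub6_apply, PowerSeries.rescale_X, map_mul, PowerSeries.expand_C, PowerSeries.expand_X]

theorem dvd_coeff_sub6 (q a : ℤ) (hq : q ∣ a) (F : PowerSeries ℤ) (r : ℕ) :
    ∀ᶠ n in atTop, q ^ r ∣ PowerSeries.coeff n (sub6 a F) := by
  filter_upwards [eventually_ge_atTop (6 * r)] with n hn
  rw [sub6_apply, PowerSeries.coeff_expand]
  split_ifs with h
  · rw [PowerSeries.coeff_rescale]
    refine Dvd.dvd.mul_right ?_ _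
    exact (pow_dvd_pow_of_dvd hq r).trans (pow_dvd_pow a (by omega))
  · exact dvd_zero _

/-- The Catalan series over `ℤ`. -/
noncomputable def cat : PowerSeries ℤ := PowerSeries.map (Nat.castRingHom ℤ) PowerSeries.catalanSeries

theorem cat_eq : cat = 1 + PowerSeries.X * cat ^ 2 := by
  have h := congrArg (PowerSeries.map (Nat.castRingHom ℤ)) PowerSeries.catalanSeries_sq_mul_X_add_one
  rw [map_add, map_mul, map_pow, PowerSeries.map_X, map_one] at h
  change cat ^ 2 * PowerSeries.X + 1 = cat at h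
  linear_combination -h

theorem sub6_cat (a : ℤ) : sub6 a cat = 1 + PowerSeries.C a * PowerSeries.X ^ 6 * sub6 a cat ^ 2 := by
  have h := congrArg (sub6 a) cat_eq
  rw [map_add, map_mul, map_pow, map_one, sub6_X] at h
  exact h

/-- The geometric series over `ℤ`. -/
noncomputable def geo : PowerSeries ℤ := PowerSeries.mk 1

theorem sub6_geo (a : ℤ) : sub6 a geo * (1 - PowerSeries.C a * PowerSeries.X ^ 6) = 1 := by
  have h := congrArg (sub6 a) (PowerSeries.mk_one_mul_one_sub_eq_one ℤ)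
  rw [map_mul, map_sub, map_one, sub6_X] at h
  exact h

variable (p : ℕ) [Fact p.Prime]

/-- The map to the series over `ℤ_p⟨X, Y⟩`. -/
noncomputable def toW : PowerSeries ℤ →+* PowerSeries (W0 p) :=
  PowerSeries.map (Int.castRingHom (W0 p))

theorem toW_mem (a : ℤ) (ha : (p : ℤ) ∣ a) (F : PowerSeries ℤ) :
    toW p (sub6 a F) ∈ res Unit (W0 p) (p : W0 p) := by
  refine mem_iff.2 fun r => ?_
  filter_upwards [dvd_coeff_sub6 (p : ℤ) a ha F r] with n hn
  have h1 : MvPowerSeries.coeff (Finsupp.single () n) (toW p (sub6 a F)) =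
      Int.castRingHom (W0 p) (PowerSeries.coeff n (sub6 a F)) :=
    PowerSeries.coeff_map _ _ _
  rw [h1]
  have h2 := map_dvd (Int.castRingHom (W0 p)) hn
  rw [map_pow, map_natCast] at h2
  exact h2

/-- The Catalan series at `- p T ^ 6`. -/
noncomputable def cV : V0 p := ⟨toW p (sub6 (-(p : ℤ)) cat), toW_mem p _ (dvd_neg.2 dvd_rfl) _⟩

/-- The geometric series at `- 4 p T ^ 6`. -/
noncomputable def gV : V0 p :=
  ⟨toW p (sub6 (-(4 * (p : ℤ))) geo), toW_mem p _ (dvd_neg.2 (dvd_mul_left _ _)) _⟩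

theorem coe_T : (TV p).1 = PowerSeries.X := rfl

theorem coe_nat (n : ℕ) : ((n : V0 p) : V0 p).1 = (n : PowerSeries (W0 p)) := rfl

theorem cV_eq : cV p = 1 - (p : V0 p) * TV p ^ 6 * cV p ^ 2 := by
  apply Subtype.ext
  have h := congrArg (toW p) (sub6_cat (-(p : ℤ)))
  rw [map_add, map_mul, map_mul, map_pow, map_pow, map_one, toW, PowerSeries.map_X,
    PowerSeries.map_C, map_neg, map_natCast, map_neg] at h
  change toW p (sub6 (-(p : ℤ)) cat) = 1 - (p : PowerSeries (W0 p)) * PowerSeries.X ^ 6 *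
    toW p (sub6 (-(p : ℤ)) cat) ^ 2
  rw [map_natCast] at h
  rw [toW]
  linear_combination h

theorem gV_eq : gV p * (1 + 4 * (p : V0 p) * TV p ^ 6) = 1 := by
  apply Subtype.ext
  have h := congrArg (toW p) (sub6_geo (-(4 * (p : ℤ))))
  rw [map_mul, map_sub, map_mul, map_pow, map_one, toW, PowerSeries.map_X,
    PowerSeries.map_C, map_neg, map_mul, map_natCast, map_ofNat, map_neg, map_mul, map_natCast,
    map_ofNat] at h
  change toW p (sub6 (-(4 * (p : ℤ))) geo) * (1 + 4 * (p : PowerSeries (W0 p)) *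
    PowerSeries.X ^ 6) = 1
  rw [toW]
  linear_combination h

/-- The square root of `1 + 4 p T ^ 6`. -/
noncomputable def vV : V0 p := 1 + 2 * (p : V0 p) * TV p ^ 6 * cV p

/-- The inverse of the square root of `1 + 4 p T ^ 6`. -/
noncomputable def uV : V0 p := vV p * gV p

theorem vV_sq : vV p ^ 2 = 1 + 4 * (p : V0 p) * TV p ^ 6 := by
  have h := cV_eq p
  rw [vV]
  linear_combination (4 * (p : V0 p) * TV p ^ 6) * h

theorem uV_vV : uV p * vV p = 1 := by
  have h1 := vV_sq p
  have h2 := gV_eq p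
  rw [uV]
  linear_combination gV p * h1 + h2

theorem ev1_vV : ev1 p (vV p) = 1 := by
  have h : ev1 p (p : V0 p) = 0 := by rw [ev1, RingHom.comp_apply, theta_p, map_zero]
  rw [vV, map_add, map_mul, map_mul, map_mul, h, map_one]
  ring

end Sqrt

end Pool.Agent.H872.BQ
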